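import Mathlib

set_option autoImplicit false

namespace Pool.Agent.Lib_helper93.OC

/-- from the integer inequality of `lemQ` to the normalised one -/
theorem arith_Q (n B P' Q' p q k E Bd S T δ : ℝ)
    (hQ : 2 * (n - B) * (n - P') + 2 * (n - B) * (n - Q') ≤ (n - P') * (n - P' + 1)
      + (n - Q') * (n - Q' + 1) + 2 * S + 4 * B + 4 * Bd + 2 * ((p - k + E) * (q - k + E))
      - (k ^ 2 - (4 * E + 1) * k))
    (hδ0 : 0 < δ) (hδ1 : δ ≤ 1 / 50) (hn : 1 ≤ δ * n) (hn0 : 0 < n)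
    (hB0 : 0 ≤ B) (hBn : B ≤ n) (hP0 : 0 ≤ P') (hQ0 : 0 ≤ Q')
    (hE0 : 0 ≤ E) (hE : E ≤ 5 * δ * n) (hBd : Bd ≤ 5 * δ * n ^ 2)
    (hS : S ≤ B * T) (hT0 : 0 ≤ T) (hTn : T ≤ n) (hk0 : 0 ≤ k) (hkp : k ≤ p) (hkq : k ≤ q)
    (hp : p ≤ n) (hq : q ≤ n) (hkT : T - 2 * δ * n ≤ k) :
    2 * (n - B) ^ 2 ≤ (B - P') ^ 2 + (B - Q') ^ 2 + 2 * B * T + 2 * (p - T) * (q - T) - T ^ 2
      + 76 * δ * n ^ 2 := by
  have h1 : n ≤ δ * n ^ 2 := by nlinarith
  have h2 : 0 ≤ δ * n ^ 2 := by positivity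
  have h3 : E * (p + q - 2 * k) ≤ 5 * δ * n * (2 * n) := by
    apply mul_le_mul hE (by linarith) (by linarith) (by positivity)
  have h4 : E * E ≤ (5 * δ * n) * (5 * δ * n) := mul_le_mul hE hE hE0 (by positivity)
  have h5 : (5 * δ * n) * (5 * δ * n) ≤ 1 / 2 * (δ * n ^ 2) := by
    have : (5 * δ * n) * (5 * δ * n) = 25 * δ * (δ * n ^ 2) := by ring
    rw [this]
    nlinarith
  have h6 : E * k ≤ 5 * δ * n * n := by
    apply mul_le_mul hE (by linarith) hk0 (by positivity)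
  have h7 : 2 * (p - k) * (q - k) - k ^ 2 ≤ 2 * (p - T) * (q - T) - T ^ 2 + 8 * (δ * n ^ 2) := by
    have h8 : 2 * (p - k) * (q - k) - k ^ 2 - (2 * (p - T) * (q - T) - T ^ 2)
        = (T - k) * (2 * (p + q) - k - T) := by ring
    have h9 : (T - k) * (2 * (p + q) - k - T) ≤ 8 * (δ * n ^ 2) := by
      rcases le_total T k with h10 | h10
      · have : (T - k) * (2 * (p + q) - k - T) ≤ 0 := by
          apply mul_nonpos_of_nonpos_of_nonneg <;> linarith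
        linarith
      · have h11 : 0 ≤ T - k := by linarith
        have h12 : T - k ≤ 2 * δ * n := by linarith
        have h13 : 2 * (p + q) - k - T ≤ 4 * n := by linarith
        calc (T - k) * (2 * (p + q) - k - T) ≤ (T - k) * (4 * n) := mul_le_mul_of_nonneg_left h13 h11
          _ ≤ (2 * δ * n) * (4 * n) := mul_le_mul_of_nonneg_right h12 (by positivity)
          _ = 8 * (δ * n ^ 2) := by ring
    linarith
  nlinarith

theorem arith_sq (n B p q T : ℝ) :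
    (B - p) ^ 2 + (B - q) ^ 2 + 2 * B * T + 2 * (p - T) * (q - T) - T ^ 2
      = (p + q - (B + T)) ^ 2 + B ^ 2 := by ring

/-- the dichotomy -/
theorem arith_dich (n B p q T δ ε : ℝ)
    (h : 2 * (n - B) ^ 2 ≤ (B - p) ^ 2 + (B - q) ^ 2 + 2 * B * T + 2 * (p - T) * (q - T) - T ^ 2
      + 76 * δ * n ^ 2)
    (hs : ε * n ^ 2 ≤ 2 * (n - B) ^ 2 - B ^ 2) (hε0 : 0 < ε) (hε1 : ε ≤ 1) (hδ : 200 * δ ≤ ε)
    (hn : 0 < n) :
    (ε / 2 * n) ^ 2 ≤ (p + q - (B + T)) ^ 2 := by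
  rw [arith_sq n B p q T] at h
  have h1 : (ε / 2 * n) ^ 2 = (ε / 4) * (ε * n ^ 2) := by ring
  have h2 : 0 ≤ n ^ 2 := by positivity
  have h3 : 76 * δ * n ^ 2 ≤ 1 / 2 * (ε * n ^ 2) := by nlinarith
  have h4 : (ε / 4) * (ε * n ^ 2) ≤ 1 / 4 * (ε * n ^ 2) := by
    apply mul_le_mul_of_nonneg_right (by linarith) (by positivity)
  have h5 : 0 ≤ ε * n ^ 2 := by positivity
  linarith

/-- high after a round from low is impossible -/
theorem arith_round (n B T p q P' Q' δ ε : ℝ)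
    (h1 : 2 * (n - B) ^ 2 ≤ (B - P') ^ 2 + (B - Q') ^ 2 + 2 * B * T + 2 * (p - T) * (q - T) - T ^ 2
      + 76 * δ * n ^ 2)
    (hs : ε * n ^ 2 ≤ 2 * (n - B) ^ 2 - B ^ 2) (hε0 : 0 < ε) (hε1 : ε ≤ 1)
    (hδ0 : 0 < δ) (hδ : 200 * δ ≤ ε) (hn : 0 < n)
    (hlow : p + q ≤ B + T - ε / 2 * n) (hhigh : B + T + ε / 2 * n ≤ P' + Q')
    (hP : p - 2 * δ * n ≤ P') (hQ : q - 2 * δ * n ≤ Q') (hqp : q ≤ p)
    (hround : P' + Q' ≤ B + q + 20 * δ * n) (hT : 0 ≤ T) (hq0 : 0 ≤ q) (hq : q ≤ n)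
    (hPn : P' ≤ n) (hQn : Q' ≤ n) : False := by
  have hn2 : 0 < n ^ 2 := by positivity
  have hδn : 0 < δ * n := by positivity
  set Qn : ℝ := q - T with hQn'
  set t : ℝ := P' + Q' - T - B with ht
  set A : ℝ := P' - q with hA
  set A' : ℝ := Q' - q with hA'
  have ht1 : ε / 2 * n ≤ t := by rw [ht]; linarith
  have ht2 : t ≤ Qn + 20 * δ * n := by rw [ht, hQn']; linarith
  have h20 : 20 * δ * n ≤ ε / 10 * n := by nlinarith
  have hQn0 : 0 ≤ Qn := by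
    have : 0 ≤ ε / 2 * n - ε / 10 * n := by
      have : 0 < ε * n := by positivity
      linarith
    linarith
  have hAA : -(5 * δ * n ^ 2) ≤ A * A' := by
    have h3 : 0 ≤ (A + 2 * δ * n) * (A' + 2 * δ * n) := by
      apply mul_nonneg
      · rw [hA]; linarith
      · rw [hA']; linarith
    have h4 : A + A' ≤ 2 * n := by rw [hA, hA']; linarith
    have h5 : δ * n * (A + A') ≤ δ * n * (2 * n) := mul_le_mul_of_nonneg_left h4 hδn.le
    have h6 : 4 * (δ * n) * (δ * n) ≤ δ * n ^ 2 := by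
      have : 4 * (δ * n) * (δ * n) = (4 * δ) * (δ * n ^ 2) := by ring
      rw [this]
      have h7 : 4 * δ ≤ 1 := by linarith
      have h8 : 0 ≤ δ * n ^ 2 := by positivity
      exact (mul_le_mul_of_nonneg_right h7 h8).trans (by linarith)
    clear_value A A'
    linarith
  -- main identity
  have hid : (B - P') ^ 2 + (B - Q') ^ 2 + 2 * B * T + 2 * (p - T) * (q - T) - T ^ 2
      = B ^ 2 + t ^ 2 - 2 * (A * A') - 2 * Qn * (B - T + t) + 2 * Qn ^ 2 + 2 * (p - T) * Qn := by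
    rw [ht, hQn', hA, hA']
    ring
  rw [hid] at h1
  have hPQ : (p - T) * Qn ≤ (B - T - ε / 2 * n - Qn) * Qn := by
    apply mul_le_mul_of_nonneg_right _ hQn0
    rw [hQn']
    linarith
  have htt : t ^ 2 ≤ t * (Qn + 20 * δ * n) := by
    rw [sq]
    apply mul_le_mul_of_nonneg_left ht2
    have : 0 < ε * n := by positivity
    linarith
  have ht0 : 0 ≤ t := by
    have : 0 < ε * n := by positivity
    linarith
  have htn : t ≤ 2 * n := by
    have h7 : 20 * δ * n ≤ n := by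
      have : 20 * δ ≤ 1 := by linarith
      nlinarith
    rw [hQn'] at ht2
    linarith
  have htQ : 0 ≤ t * Qn := mul_nonneg ht0 hQn0
  have hQn3 : 0 ≤ ε / 2 * n * Qn := by positivity
  have h8 : t * (20 * δ * n) ≤ 2 * n * (20 * δ * n) := mul_le_mul_of_nonneg_right htn (by positivity)
  have h9 : 126 * δ * n ^ 2 < ε * n ^ 2 := by
    apply mul_lt_mul_of_pos_right _ hn2
    linarith
  clear_value Qn t A A'
  linarith

end Pool.Agent.Lib_helper93.OC
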