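import Mathlib

set_option autoImplicit false

/-!
Abstract layer for the monotone oriented-cycle game.  A position at OMaker's turn in which she does not
win is a strict partial order `r`; an attack `x -> y` on an incomparable pair costs at most `B` relations.
-/

namespace Pool.Agent.Lib_helper93.OC

open Finset Classical

variable {V : Type} [Fintype V]

/-- the related pairs -/
noncomputable def rel (r : V → V → Prop) : Finset (V × V) := univ.filter (fun p : V × V => r p.1 p.2)

/-- number of related pairs -/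
noncomputable def sz (r : V → V → Prop) : ℕ := (rel r).card

/-- closed up-set -/
noncomputable def up (r : V → V → Prop) (x : V) : Finset V := univ.filter (fun y => y = x ∨ r x y)

/-- open up-set -/
noncomputable def uo (r : V → V → Prop) (x : V) : Finset V := univ.filter (fun y => r x y)

/-- the opposite relation -/
def op (r : V → V → Prop) : V → V → Prop := fun x y => r y x

/-- closed down-set -/
noncomputable def dn (r : V → V → Prop) (x : V) : Finset V := up (op r) x

theorem mem_rel {r : V → V → Prop} {p : V × V} : p ∈ rel r ↔ r p.1 p.2 := by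
  simp [rel]

theorem mem_up {r : V → V → Prop} {x y : V} : y ∈ up r x ↔ y = x ∨ r x y := by
  simp [up]

theorem mem_uo {r : V → V → Prop} {x y : V} : y ∈ uo r x ↔ r x y := by
  simp [uo]

theorem mem_dn {r : V → V → Prop} {x y : V} : y ∈ dn r x ↔ y = x ∨ r y x := by
  unfold dn
  rw [mem_up]
  rfl

omit [Fintype V] in
theorem op_op (r : V → V → Prop) : op (op r) = r := rfl

theorem dn_op (r : V → V → Prop) (x : V) : dn (op r) x = up r x := rfl

theorem self_mem_up (r : V → V → Prop) (x : V) : x ∈ up r x := mem_up.2 (Or.inl rfl)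

theorem self_mem_dn (r : V → V → Prop) (x : V) : x ∈ dn r x := mem_dn.2 (Or.inl rfl)

/-- the axioms of a family of non-lost positions -/
structure GG (B : ℕ) (G : (V → V → Prop) → Prop) : Prop where
  irr : ∀ r, G r → ∀ x, ¬ r x x
  tr : ∀ r, G r → ∀ x y z, r x y → r y z → r x z
  step : ∀ r, G r → ∀ x y, x ≠ y → ¬ r x y → ¬ r y x →
    ∃ r', G r' ∧ (∀ a b, r a b → r' a b) ∧ r' x y ∧ sz r' ≤ sz r + B

theorem sz_op (r : V → V → Prop) : sz (op r) = sz r := by
  unfold sz
  refine Finset.card_bij' (fun p _ => p.swap) (fun p _ => p.swap) ?_ ?_ ?_ ?_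
  · intro p hp
    rw [mem_rel] at hp ⊢
    exact hp
  · intro p hp
    rw [mem_rel] at hp ⊢
    exact hp
  · intro p _
    exact Prod.swap_swap p
  · intro p _
    exact Prod.swap_swap p

theorem GG.op {B : ℕ} {G : (V → V → Prop) → Prop} (h : GG B G) : GG B (fun r => G (op r)) where
  irr := fun r hr x => h.irr _ hr x
  tr := fun r hr x y z h1 h2 => h.tr _ hr z y x h2 h1
  step := by
    intro r hr x y hne h1 h2
    obtain ⟨r', h3, h4, h5, h6⟩ := h.step _ hr y x hne.symm h1 h2
    refine ⟨Pool.Agent.Lib_helper93.OC.op r', h3, fun a b hab => h4 b a hab, h5, ?_⟩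
    rw [sz_op] at h6 ⊢
    exact h6

theorem sum_uo (r : V → V → Prop) (S : Finset V) :
    ∑ x ∈ S, (uo r x).card = ((rel r).filter (fun p => p.1 ∈ S)).card := by
  have h1 : ((rel r).filter (fun p => p.1 ∈ S)).card
      = ∑ x ∈ S, (((rel r).filter (fun p => p.1 ∈ S)).filter (fun p => p.1 = x)).card :=
    Finset.card_eq_sum_card_fiberwise (fun p hp => (Finset.mem_filter.1 hp).2)
  rw [h1]
  apply Finset.sum_congr rfl
  intro x hx
  refine Finset.card_bij' (fun y _ => (x, y)) (fun p _ => p.2) ?_ ?_ ?_ ?_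
  · intro y hy
    rw [mem_uo] at hy
    rw [mem_filter, mem_filter, mem_rel]
    exact ⟨⟨hy, hx⟩, rfl⟩
  · intro p hp
    rw [mem_filter, mem_filter, mem_rel] at hp
    rw [mem_uo]
    obtain ⟨⟨h1, h2⟩, h3⟩ := hp
    rw [← h3]
    exact h1
  · intro y _
    rfl
  · intro p hp
    simp only [mem_filter, mem_rel] at hp
    obtain ⟨⟨h1, h2⟩, h3⟩ := hp
    rw [← h3]

theorem sz_eq_sum (r : V → V → Prop) : sz r = ∑ x, (uo r x).card := by
  rw [sum_uo]
  unfold sz
  congr 1
  ext p
  simp

theorem card_up (r : V → V → Prop) (hirr : ∀ x, ¬ r x x) (x : V) :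
    (up r x).card = (uo r x).card + 1 := by
  have : up r x = insert x (uo r x) := by
    ext y
    simp only [mem_up, mem_insert, mem_uo]
  rw [this, Finset.card_insert_of_notMem]
  rw [mem_uo]
  exact hirr x

theorem up_subset {r : V → V → Prop} (htr : ∀ x y z, r x y → r y z → r x z) {x y : V} (h : r x y) :
    up r y ⊆ uo r x := by
  intro z hz
  rw [mem_up] at hz
  rw [mem_uo]
  rcases hz with rfl | hz
  · exact h
  · exact htr _ _ _ h hz

theorem uo_subset_up (r : V → V → Prop) (x : V) : uo r x ⊆ up r x := by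
  intro z hz
  rw [mem_uo] at hz
  exact mem_up.2 (Or.inr hz)

theorem up_mono {r r' : V → V → Prop} (h : ∀ a b, r a b → r' a b) (x : V) : up r x ⊆ up r' x := by
  intro z hz
  rw [mem_up] at hz ⊢
  rcases hz with hz | hz
  · exact Or.inl hz
  · exact Or.inr (h _ _ hz)

theorem uo_mono {r r' : V → V → Prop} (h : ∀ a b, r a b → r' a b) (x : V) : uo r x ⊆ uo r' x := by
  intro z hz
  rw [mem_uo] at hz ⊢
  exact h _ _ hz

theorem rel_mono {r r' : V → V → Prop} (h : ∀ a b, r a b → r' a b) : rel r ⊆ rel r' := by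
  intro p hp
  rw [mem_rel] at hp ⊢
  exact h _ _ hp

/-- the L-run inequality -/
theorem Lrun {B : ℕ} {G : (V → V → Prop) → Prop} (hG : GG B G) (hn : Fintype.card V ≤ 2 * B + 1) :
    ∀ m : ℕ, ∀ r, G r → ∀ c : V, (up r c)ᶜ.card = m →
      2 * ((Fintype.card V : ℤ) - B) * m ≤ m * (m + 1) + 2 * ∑ z ∈ (up r c)ᶜ, ((uo r z).card : ℤ) := by
  intro m
  induction m using Nat.strong_induction_on with
  | _ m ih =>
    intro r hr c hm
    rcases Nat.eq_zero_or_pos m with h0 | hpos
    · subst h0
      have : 0 ≤ ∑ z ∈ (up r c)ᶜ, ((uo r z).card : ℤ) := Finset.sum_nonneg (fun _ _ => by positivity)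
      push_cast
      linarith
    have hne : ((up r c)ᶜ).Nonempty := by
      rw [← Finset.card_pos, hm]
      exact hpos
    obtain ⟨z, hz, hzmin⟩ := Finset.exists_min_image ((up r c)ᶜ) (fun z => (uo r z).card) hne
    rw [Finset.mem_compl, mem_up, not_or] at hz
    obtain ⟨hzc, hcz⟩ := hz
    have hcard : (up r c).card + m = Fintype.card V := by
      rw [← hm]
      exact Finset.card_add_card_compl _
    set n : ℕ := Fintype.card V with hnd
    set u : ℕ := (uo r z).card with hu
    have hS : (m : ℤ) * u ≤ ∑ z ∈ (up r c)ᶜ, ((uo r z).card : ℤ) := by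
      have h1 : ∑ z ∈ (up r c)ᶜ, (u : ℤ) ≤ ∑ z ∈ (up r c)ᶜ, ((uo r z).card : ℤ) := by
        apply Finset.sum_le_sum
        intro w hw
        exact_mod_cast hzmin w hw
      rw [Finset.sum_const, hm, nsmul_eq_mul] at h1
      exact h1
    by_cases hrz : r z c
    · have h1 : (up r c).card ≤ u := Finset.card_le_card (up_subset (hG.tr r hr) hrz)
      have h2 : (n : ℤ) - m ≤ u := by
        have : (up r c).card = n - m := by omega
        push_cast [← hcard]
        have h3 : ((up r c).card : ℤ) ≤ u := by exact_mod_cast h1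
        linarith
      have hB : (n : ℤ) ≤ 2 * B + 1 := by exact_mod_cast hn
      have hmn : (m : ℤ) ≤ n := by
        have : m ≤ n := by omega
        exact_mod_cast this
      have hm1 : (1 : ℤ) ≤ m := by exact_mod_cast hpos
      nlinarith
    · obtain ⟨r', hr', hsub, hzc', hsz⟩ := hG.step r hr z c hzc hrz hcz
      have hins : insert z (up r c) ⊆ up r' z := by
        intro y hy
        rw [Finset.mem_insert] at hy
        rcases hy with rfl | hy
        · exact self_mem_up _ _
        · rw [mem_up] at hy ⊢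
          rcases hy with rfl | hy
          · exact Or.inr hzc'
          · exact Or.inr (hG.tr r' hr' _ _ _ hzc' (hsub _ _ hy))
      have hznot : z ∉ up r c := by
        rw [mem_up, not_or]
        exact ⟨hzc, hcz⟩
      have hsubset : up r c ⊆ up r' z := fun y hy => hins (Finset.mem_insert_of_mem hy)
      have hcompl : (up r' z)ᶜ ⊆ (up r c)ᶜ := Finset.compl_subset_compl.2 hsubset
      set m' : ℕ := ((up r' z)ᶜ).card with hm'
      have hcard' : (up r' z).card + m' = n := Finset.card_add_card_compl _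
      have hlt : (up r c).card + 1 ≤ (up r' z).card := by
        rw [← Finset.card_insert_of_notMem hznot]
        exact Finset.card_le_card hins
      have hm'lt : m' < m := by omega
      have IH := ih m' hm'lt r' hr' z rfl
      -- increments
      have hinc : ∀ w, (uo r w).card ≤ (uo r' w).card := fun w => Finset.card_le_card (uo_mono hsub w)
      have hz' : (uo r' z).card + 1 = (up r' z).card := (card_up r' (hG.irr r' hr') z).symm
      have htot : ∑ w, (((uo r' w).card : ℤ) - (uo r w).card) ≤ B := by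
        rw [Finset.sum_sub_distrib]
        have h1 := sz_eq_sum r
        have h2 := sz_eq_sum r'
        have h3 : ((sz r' : ℕ) : ℤ) ≤ (sz r : ℕ) + B := by exact_mod_cast hsz
        rw [h1, h2] at h3
        push_cast at h3
        linarith
      have hpart : ∑ w ∈ (up r' z)ᶜ, (((uo r' w).card : ℤ) - (uo r w).card)
          + (((uo r' z).card : ℤ) - u) ≤ B := by
        refine le_trans ?_ htot
        have hzn : z ∉ (up r' z)ᶜ := by
          rw [Finset.mem_compl, not_not]
          exact self_mem_up _ _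
        have h1 : ∑ w ∈ insert z ((up r' z)ᶜ), (((uo r' w).card : ℤ) - (uo r w).card)
            = (((uo r' z).card : ℤ) - u) + ∑ w ∈ (up r' z)ᶜ, (((uo r' w).card : ℤ) - (uo r w).card) :=
          Finset.sum_insert hzn
        have h2 : ∑ w ∈ insert z ((up r' z)ᶜ), (((uo r' w).card : ℤ) - (uo r w).card)
            ≤ ∑ w, (((uo r' w).card : ℤ) - (uo r w).card) := by
          apply Finset.sum_le_sum_of_subset_of_nonneg (Finset.subset_univ _)
          intro w _ _
          have := hinc w
          have h3 : ((uo r w).card : ℤ) ≤ (uo r' w).card := by exact_mod_cast this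
          linarith
        linarith
      rw [Finset.sum_sub_distrib] at hpart
      have hdiff : ∑ w ∈ (up r' z)ᶜ, ((uo r w).card : ℤ) + ((m : ℤ) - m') * u
          ≤ ∑ w ∈ (up r c)ᶜ, ((uo r w).card : ℤ) := by
        rw [← Finset.sum_sdiff hcompl]
        have h1 : ∑ w ∈ (up r c)ᶜ \ (up r' z)ᶜ, (u : ℤ) ≤ ∑ w ∈ (up r c)ᶜ \ (up r' z)ᶜ, ((uo r w).card : ℤ) := by
          apply Finset.sum_le_sum
          intro w hw
          exact_mod_cast hzmin w (Finset.mem_sdiff.1 hw).1
        rw [Finset.sum_const, nsmul_eq_mul, Finset.card_sdiff_of_subset hcompl, hm, ← hm',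
          Nat.cast_sub hm'lt.le] at h1
        linarith
      have hz'' : ((uo r' z).card : ℤ) = n - m' - 1 := by
        have h1 : (uo r' z).card + 1 + m' = n := by omega
        have h2 : ((uo r' z).card : ℤ) + 1 + m' = n := by exact_mod_cast h1
        linarith
      have hzz : (u : ℤ) ≤ (uo r' z).card := by exact_mod_cast hinc z
      have hpart2 : ∑ w ∈ (up r' z)ᶜ, ((uo r w).card : ℤ) ≤ ∑ w ∈ (up r' z)ᶜ, ((uo r' w).card : ℤ) := by
        apply Finset.sum_le_sum
        intro w _
        exact_mod_cast hinc w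
      have h4 : (m' : ℤ) + 1 ≤ m := by exact_mod_cast hm'lt
      have hu0 : (0 : ℤ) ≤ u := by positivity
      have hm0 : (0 : ℤ) ≤ m' := by positivity
      set S : ℤ := ∑ w ∈ (up r c)ᶜ, ((uo r w).card : ℤ) with hSdef
      set S1 : ℤ := ∑ w ∈ (up r' z)ᶜ, ((uo r' w).card : ℤ) with hS1
      set S2 : ℤ := ∑ w ∈ (up r' z)ᶜ, ((uo r w).card : ℤ) with hS2
      -- IH : 2 * (n - B) * m' ≤ m' * (m' + 1) + 2 * S1
      -- hpart : S1 - S2 + ((n - m' - 1) - u) ≤ B
      -- hdiff : S2 + (m - m') * u ≤ S
      rw [hz''] at hpart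
      have h5 : (n : ℤ) - B ≤ m' + 1 + u := by linarith
      have h6 : S1 ≤ S - (m - m') * u + B - (n - m' - 1 - u) := by linarith
      obtain ⟨t, ht⟩ : ∃ t : ℤ, (m : ℤ) = m' + 1 + t := ⟨m - m' - 1, by ring⟩
      have ht0 : 0 ≤ t := by linarith
      rw [ht] at h6 ⊢
      nlinarith [mul_nonneg ht0 ht0, mul_le_mul_of_nonneg_left h5 ht0]

end Pool.Agent.Lib_helper93.OC
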