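import Pool.Agent.Lib_helper93.OC.Basic

set_option autoImplicit false

namespace Pool.Agent.Lib_helper93.OC

open Finset Classical

variable {V : Type} [Fintype V]

/-- few missing pairs below `x` and above `y`, for incomparable `x, y` -/
theorem IK {B : ℕ} {G : (V → V → Prop) → Prop} (hG : GG B G) {r : V → V → Prop} (hr : G r) {x y : V}
    (hne : x ≠ y) (h1 : ¬ r x y) (h2 : ¬ r y x) (P : Finset (V × V))
    (hP : ∀ p ∈ P, p.1 ∈ dn r x ∧ p.2 ∈ up r y ∧ ¬ r p.1 p.2) : P.card ≤ B := by
  obtain ⟨r', hr', hsub, hxy, hsz⟩ := hG.step r hr x y hne h1 h2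
  have hdisj : Disjoint (rel r) P := by
    rw [Finset.disjoint_left]
    intro p hp hpP
    rw [mem_rel] at hp
    exact (hP p hpP).2.2 hp
  have hsubs : rel r ∪ P ⊆ rel r' := by
    apply Finset.union_subset (rel_mono hsub)
    intro p hp
    obtain ⟨h3, h4, _⟩ := hP p hp
    rw [mem_dn] at h3
    rw [mem_up] at h4
    rw [mem_rel]
    have h5 : r' p.1 y := by
      rcases h3 with h3 | h3
      · rw [h3]
        exact hxy
      · exact hG.tr r' hr' _ _ _ (hsub _ _ h3) hxy
    rcases h4 with h4 | h4
    · rw [h4]
      exact h5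
    · exact hG.tr r' hr' _ _ _ h5 (hsub _ _ h4)
  have h3 := Finset.card_le_card hsubs
  rw [Finset.card_union_of_disjoint hdisj] at h3
  unfold sz at hsz
  omega

/-- few relations whose lower end is incomparable to a maximal element with nearly the largest down-set -/
theorem bad {B : ℕ} {G : (V → V → Prop) → Prop} (hG : GG B G) {r : V → V → Prop} (hr : G r) {t : V}
    {η K : ℕ} (hη : 0 < η) (hBK : B ≤ η * K) (hmaxl : ∀ z, ¬ r t z)
    (hnear : ∀ b, (dn r b).card ≤ (dn r t).card + η) :
    ((rel r).filter (fun p => p.1 ∉ dn r t)).card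
      ≤ 2 * η * Fintype.card V + Fintype.card V * K := by
  set ρ : V → ℕ := fun b => (dn r b \ dn r t).card with hρ
  have hsplit : (rel r).filter (fun p => p.1 ∉ dn r t)
      = ((rel r).filter (fun p => p.1 ∉ dn r t ∧ ρ p.2 ≤ 2 * η))
        ∪ ((rel r).filter (fun p => p.1 ∉ dn r t ∧ ¬ ρ p.2 ≤ 2 * η)) := by
    ext p
    simp only [mem_filter, mem_union]
    tauto
  have h1 : ((rel r).filter (fun p => p.1 ∉ dn r t ∧ ρ p.2 ≤ 2 * η)).card
      ≤ 2 * η * Fintype.card V := by
    have h2 : ((rel r).filter (fun p => p.1 ∉ dn r t ∧ ρ p.2 ≤ 2 * η)).card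
        ≤ 2 * η * (univ : Finset V).card := by
      apply Finset.card_le_mul_card_image_of_maps_to (f := Prod.snd) (fun p _ => Finset.mem_univ _)
      intro b _
      by_cases hb : ρ b ≤ 2 * η
      · refine le_trans ?_ hb
        rw [hρ]
        have : (((rel r).filter (fun p => p.1 ∉ dn r t ∧ ρ p.2 ≤ 2 * η)).filter (fun p => p.2 = b))
            ⊆ (dn r b \ dn r t).image (fun a => (a, b)) := by
          intro p hp
          rw [mem_filter, mem_filter, mem_rel] at hp
          obtain ⟨⟨h3, h4, h5⟩, h6⟩ := hp
          rw [Finset.mem_image]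
          refine ⟨p.1, ?_, ?_⟩
          · rw [Finset.mem_sdiff, mem_dn]
            refine ⟨Or.inr ?_, h4⟩
            rw [← h6]
            exact h3
          · rw [← h6]
        exact le_trans (Finset.card_le_card this) Finset.card_image_le
      · have : (((rel r).filter (fun p => p.1 ∉ dn r t ∧ ρ p.2 ≤ 2 * η)).filter (fun p => p.2 = b)) = ∅ := by
          rw [Finset.eq_empty_iff_forall_notMem]
          intro p hp
          rw [mem_filter, mem_filter] at hp
          obtain ⟨⟨h3, h4, h5⟩, h6⟩ := hp
          rw [h6] at h5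
          exact hb h5
        rw [this]
        simp
    simpa using h2
  have h2 : ((rel r).filter (fun p => p.1 ∉ dn r t ∧ ¬ ρ p.2 ≤ 2 * η)).card
      ≤ Fintype.card V * K := by
    have h3 : ((rel r).filter (fun p => p.1 ∉ dn r t ∧ ¬ ρ p.2 ≤ 2 * η)).card
        ≤ K * (univ : Finset V).card := by
      apply Finset.card_le_mul_card_image_of_maps_to (f := Prod.fst) (fun p _ => Finset.mem_univ _)
      intro a _
      by_cases ha : a ∈ dn r t
      · have : (((rel r).filter (fun p => p.1 ∉ dn r t ∧ ¬ ρ p.2 ≤ 2 * η)).filter (fun p => p.1 = a)) = ∅ := by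
          rw [Finset.eq_empty_iff_forall_notMem]
          intro p hp
          rw [mem_filter, mem_filter] at hp
          obtain ⟨⟨h3, h4, h5⟩, h6⟩ := hp
          rw [h6] at h4
          exact h4 ha
        rw [this]
        simp
      · have ha' := ha
        rw [mem_dn, not_or] at ha
        obtain ⟨ha1, ha2⟩ := ha
        set Bs : Finset V := univ.filter (fun b => r a b ∧ ¬ ρ b ≤ 2 * η) with hBs
        have h4 : (((rel r).filter (fun p => p.1 ∉ dn r t ∧ ¬ ρ p.2 ≤ 2 * η)).filter (fun p => p.1 = a))
            ⊆ Bs.image (fun b => (a, b)) := by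
          intro p hp
          rw [mem_filter, mem_filter, mem_rel] at hp
          obtain ⟨⟨h3, h4, h5⟩, h6⟩ := hp
          rw [Finset.mem_image]
          refine ⟨p.2, ?_, ?_⟩
          · rw [hBs, mem_filter]
            refine ⟨Finset.mem_univ _, ?_, h5⟩
            rw [← h6]
            exact h3
          · rw [← h6]
        have h5 : Bs.card * η ≤ B := by
          -- the set of pairs (d, b), b ∈ Bs, d ∈ dn r t \ dn r b
          have h6 := IK hG hr (x := t) (y := a) (Ne.symm ha1) (hmaxl a) ha2
            (Bs.sigma (fun b => dn r t \ dn r b) |>.image (fun s => (s.2, s.1))) (by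
              intro p hp
              rw [Finset.mem_image] at hp
              obtain ⟨s, hs, rfl⟩ := hp
              rw [Finset.mem_sigma, hBs, mem_filter, Finset.mem_sdiff] at hs
              obtain ⟨⟨_, h7, h8⟩, h9, h10⟩ := hs
              refine ⟨h9, mem_up.2 (Or.inr h7), ?_⟩
              intro h11
              exact h10 (mem_dn.2 (Or.inr h11)))
          rw [Finset.card_image_of_injective, Finset.card_sigma] at h6
          · refine le_trans ?_ h6
            rw [← smul_eq_mul, ← Finset.sum_const]
            apply Finset.sum_le_sum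
            intro b hb
            rw [hBs, mem_filter] at hb
            obtain ⟨_, h7, h8⟩ := hb
            have h9 := hnear b
            have h10 : (dn r t \ dn r b).card + (dn r b).card = (dn r t ∪ dn r b).card :=
              Finset.card_sdiff_add_card _ _
            have h11 : (dn r b \ dn r t).card + (dn r t).card = (dn r b ∪ dn r t).card :=
              Finset.card_sdiff_add_card _ _
            rw [Finset.union_comm] at h11
            have h12 : ρ b = (dn r b \ dn r t).card := rfl
            omega
          · intro s s' hss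
            obtain ⟨s1, s2⟩ := s
            obtain ⟨s3, s4⟩ := s'
            simp only [Prod.mk.injEq] at hss
            obtain ⟨h7, h8⟩ := hss
            subst h7
            subst h8
            rfl
        have h6 : Bs.card ≤ K := by
          have h7 : Bs.card * η ≤ K * η := by
            calc Bs.card * η ≤ B := h5
              _ ≤ η * K := hBK
              _ = K * η := by ring
          exact Nat.le_of_mul_le_mul_right h7 hη
        exact le_trans (Finset.card_le_card h4) (le_trans Finset.card_image_le h6)
    rw [Finset.card_univ, mul_comm K] at h3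
    exact h3
  rw [hsplit]
  exact le_trans (Finset.card_union_le _ _) (by omega)

/-- `C` is a chain with bottom `a` and top `t` -/
def IsCh (r : V → V → Prop) (C : Finset V) (a t : V) : Prop :=
  a ∈ C ∧ t ∈ C ∧ (∀ x ∈ C, x = a ∨ r a x) ∧ (∀ x ∈ C, x = t ∨ r x t) ∧
    (∀ x ∈ C, ∀ y ∈ C, x = y ∨ r x y ∨ r y x)

omit [Fintype V] in
theorem IsCh.op {r : V → V → Prop} {C : Finset V} {a t : V} (h : IsCh r C a t) : IsCh (op r) C t a := by
  obtain ⟨h1, h2, h3, h4, h5⟩ := h
  refine ⟨h2, h1, h4, h3, ?_⟩
  intro x hx y hy
  rcases h5 x hx y hy with h | h | h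
  · exact Or.inl h
  · exact Or.inr (Or.inr h)
  · exact Or.inr (Or.inl h)

omit [Fintype V] in
theorem IsCh.mono {r r' : V → V → Prop} (hsub : ∀ a b, r a b → r' a b) {C : Finset V} {a t : V}
    (h : IsCh r C a t) : IsCh r' C a t := by
  obtain ⟨h1, h2, h3, h4, h5⟩ := h
  refine ⟨h1, h2, fun x hx => (h3 x hx).imp_right (hsub _ _), fun x hx => (h4 x hx).imp_right (hsub _ _), ?_⟩
  intro x hx y hy
  exact (h5 x hx y hy).imp_right (fun h => h.imp (hsub _ _) (hsub _ _))

/-- the weight of a chain -/
noncomputable def FF (r : V → V → Prop) (W : ℕ) (C : Finset V) (a t : V) : ℕ :=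
  W * C.card + (up r a).card + (dn r t).card

theorem FF_op (r : V → V → Prop) (W : ℕ) (C : Finset V) (a t : V) : FF (op r) W C t a = FF r W C a t := by
  unfold FF
  have h1 : up (op r) t = dn r t := rfl
  have h2 : dn (op r) a = up r a := rfl
  rw [h1, h2]
  ring

/-- a chain of maximal weight -/
def FM (r : V → V → Prop) (W : ℕ) (C : Finset V) (a t : V) : Prop :=
  IsCh r C a t ∧ ∀ C' a' t', IsCh r C' a' t' → FF r W C' a' t' ≤ FF r W C a t

theorem FM.op {r : V → V → Prop} {W : ℕ} {C : Finset V} {a t : V} (h : FM r W C a t) :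
    FM (op r) W C t a := by
  refine ⟨h.1.op, ?_⟩
  intro C' a' t' h'
  have h1 := h.2 C' t' a' h'.op
  rw [FF_op r W C' t' a', FF_op r W C a t]
  exact h1

theorem exists_FM [Nonempty V] (r : V → V → Prop) (W : ℕ) : ∃ C a t, FM r W C a t := by
  obtain ⟨v⟩ := ‹Nonempty V›
  have hne : ((univ : Finset (Finset V × V × V)).filter (fun s => IsCh r s.1 s.2.1 s.2.2)).Nonempty := by
    refine ⟨({v}, v, v), ?_⟩
    rw [mem_filter]
    refine ⟨Finset.mem_univ _, ?_⟩
    simp [IsCh]
  obtain ⟨s, hs, hmax⟩ := Finset.exists_max_image _ (fun s : Finset V × V × V => FF r W s.1 s.2.1 s.2.2) hne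
  rw [mem_filter] at hs
  refine ⟨s.1, s.2.1, s.2.2, hs.2, ?_⟩
  intro C' a' t' h'
  exact hmax (C', a', t') (by rw [mem_filter]; exact ⟨Finset.mem_univ _, h'⟩)

theorem up_sub_up {B : ℕ} {G : (V → V → Prop) → Prop} (hG : GG B G) {r : V → V → Prop} (hr : G r)
    {x y : V} (h : r x y) : up r y ⊆ up r x :=
  (up_subset (hG.tr r hr) h).trans (uo_subset_up r x)

/-- the bottom of a maximal chain is minimal -/
theorem FM.bot {B : ℕ} {G : (V → V → Prop) → Prop} (hG : GG B G) {r : V → V → Prop} (hr : G r) {W : ℕ}
    {C : Finset V} {a t : V} (h : FM r W C a t) (z : V) : ¬ r z a := by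
  intro hza
  obtain ⟨⟨h1, h2, h3, h4, h5⟩, hmax⟩ := h
  have hzx : ∀ x ∈ C, r z x := by
    intro x hx
    rcases h3 x hx with rfl | h
    · exact hza
    · exact hG.tr r hr _ _ _ hza h
  have hzC : z ∉ C := fun hz => hG.irr r hr z (hzx z hz)
  have hch : IsCh r (insert z C) z t := by
    refine ⟨Finset.mem_insert_self _ _, Finset.mem_insert_of_mem h2, ?_, ?_, ?_⟩
    · intro x hx
      rw [Finset.mem_insert] at hx
      exact hx.imp_right (hzx x)
    · intro x hx
      rw [Finset.mem_insert] at hx
      rcases hx with rfl | hx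
      · exact Or.inr (hzx t h2)
      · exact h4 x hx
    · intro x hx y hy
      rw [Finset.mem_insert] at hx hy
      rcases hx with rfl | hx
      · rcases hy with rfl | hy
        · exact Or.inl rfl
        · exact Or.inr (Or.inl (hzx y hy))
      · rcases hy with rfl | hy
        · exact Or.inr (Or.inr (hzx x hx))
        · exact h5 x hx y hy
  have h6 := hmax _ _ _ hch
  unfold FF at h6
  rw [Finset.card_insert_of_notMem hzC] at h6
  have h7 : (up r a).card < (up r z).card := by
    apply Finset.card_lt_card
    refine ⟨up_sub_up hG hr hza, ?_⟩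
    intro h8
    have h9 := h8 (self_mem_up r z)
    rw [mem_up] at h9
    rcases h9 with h9 | h9
    · rw [h9] at hza
      exact hG.irr r hr _ hza
    · exact hG.irr r hr _ (hG.tr r hr _ _ _ h9 hza)
  have h8 : W * C.card ≤ W * (C.card + 1) := Nat.mul_le_mul_left _ (Nat.le_succ _)
  omega

theorem FM.top {B : ℕ} {G : (V → V → Prop) → Prop} (hG : GG B G) {r : V → V → Prop} (hr : G r) {W : ℕ}
    {C : Finset V} {a t : V} (h : FM r W C a t) (z : V) : ¬ r t z :=
  FM.bot hG.op (r := Pool.Agent.Lib_helper93.OC.op r) hr h.op z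

/-- a nonempty subset of a chain has a largest element -/
theorem chain_max {B : ℕ} {G : (V → V → Prop) → Prop} (hG : GG B G) {r : V → V → Prop} (hr : G r)
    {C : Finset V} {a t : V} (h : IsCh r C a t) (N : Finset V) (hN : N ⊆ C) (hne : N.Nonempty) :
    ∃ c ∈ N, ∀ x ∈ N, x = c ∨ r x c := by
  obtain ⟨c, hc, hmax⟩ := Finset.exists_max_image N (fun c => (dn r c).card) hne
  refine ⟨c, hc, ?_⟩
  intro x hx
  rcases h.2.2.2.2 x (hN hx) c (hN hc) with h1 | h1 | h1
  · exact Or.inl h1
  · exact Or.inr h1
  · exfalso
    have h2 := hmax x hx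
    have h3 : (dn r c).card < (dn r x).card := by
      apply Finset.card_lt_card
      refine ⟨?_, ?_⟩
      · exact up_sub_up (r := op r) hG.op hr h1
      · intro h4
        have h5 := h4 (self_mem_dn r x)
        rw [mem_dn] at h5
        rcases h5 with h5 | h5
        · rw [h5] at h1
          exact hG.irr r hr _ h1
        · exact hG.irr r hr _ (hG.tr r hr _ _ _ h5 h1)
    omega

theorem IsCh.sub_up {r : V → V → Prop} {C : Finset V} {a t : V} (h : IsCh r C a t) : C ⊆ up r a := by
  intro x hx
  rw [mem_up]
  exact h.2.2.1 x hx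

theorem IsCh.sub_dn {r : V → V → Prop} {C : Finset V} {a t : V} (h : IsCh r C a t) : C ⊆ dn r t := by
  intro x hx
  rw [mem_dn]
  exact h.2.2.2.1 x hx

/-- product form of `IK` -/
theorem IK_prod {B : ℕ} {G : (V → V → Prop) → Prop} (hG : GG B G) {r : V → V → Prop} (hr : G r) {x y : V}
    (hne : x ≠ y) (h1 : ¬ r x y) (h2 : ¬ r y x) (N Z : Finset V) (hN : N ⊆ dn r x) (hZ : Z ⊆ up r y)
    (hno : ∀ d ∈ N, ∀ u ∈ Z, ¬ r d u) : N.card * Z.card ≤ B := by
  rw [← Finset.card_product]
  apply IK hG hr hne h1 h2
  intro p hp
  rw [Finset.mem_product] at hp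
  exact ⟨hN hp.1, hZ hp.2, hno _ hp.1 _ hp.2⟩

/-- the bottom of a long maximal chain nearly maximises the up-set -/
theorem FM.near {B : ℕ} {G : (V → V → Prop) → Prop} (hG : GG B G) {r : V → V → Prop} (hr : G r) {W : ℕ}
    {C : Finset V} {a t : V} (h : FM r W C a t) {K η : ℕ} (hK : 0 < K) (hKC : K ≤ C.card)
    (hBK : B ≤ η * K) (hWK : W * K ≤ η) (v : V) : (up r v).card ≤ (up r a).card + η := by
  obtain ⟨hch, hmax⟩ := h
  have hsup := hch.sub_up
  obtain ⟨h1, h2, h3, h4, h5⟩ := hch
  set N : Finset V := C.filter (fun c => c ∉ up r v) with hN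
  set N' : Finset V := C.filter (fun c => c ∈ up r v) with hN'
  have hNN : N'.card + N.card = C.card := Finset.card_filter_add_card_filter_not (s := C) (fun c => c ∈ up r v)
  by_cases hlt : N.card < K
  · have hne : N'.Nonempty := by
      rw [← Finset.card_pos]
      omega
    have htN : t ∈ N' := by
      obtain ⟨c, hc⟩ := hne
      rw [hN', mem_filter] at hc ⊢
      refine ⟨h2, ?_⟩
      rw [mem_up] at hc ⊢
      rcases h4 c hc.1 with h6 | h6
      · rw [← h6]
        exact hc.2
      · rcases hc.2 with h7 | h7
        · rw [← h7]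
          exact Or.inr h6
        · exact Or.inr (hG.tr r hr _ _ _ h7 h6)
    have hch : IsCh r (insert v N') v t := by
      refine ⟨Finset.mem_insert_self _ _, Finset.mem_insert_of_mem htN, ?_, ?_, ?_⟩
      · intro x hx
        rw [Finset.mem_insert, hN', mem_filter, mem_up] at hx
        rcases hx with hx | hx
        · exact Or.inl hx
        · exact hx.2
      · intro x hx
        rw [Finset.mem_insert] at hx
        rcases hx with rfl | hx
        · rw [hN', mem_filter, mem_up] at htN
          exact htN.2.imp_left Eq.symm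
        · rw [hN', mem_filter] at hx
          exact h4 x hx.1
      · intro x hx y hy
        rw [Finset.mem_insert, hN', mem_filter, mem_up] at hx hy
        rcases hx with rfl | hx
        · rcases hy with rfl | hy
          · exact Or.inl rfl
          · rcases hy.2 with h6 | h6
            · exact Or.inl h6.symm
            · exact Or.inr (Or.inl h6)
        · rcases hy with rfl | hy
          · rcases hx.2 with h6 | h6
            · exact Or.inl h6
            · exact Or.inr (Or.inr h6)
          · exact h5 x hx.1 y hy.1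
    have h6 := hmax _ _ _ hch
    unfold FF at h6
    have h7 : N'.card ≤ (insert v N').card := Finset.card_le_card (Finset.subset_insert _ _)
    have h8 : W * N'.card ≤ W * (insert v N').card := Nat.mul_le_mul_left _ h7
    have h9 : W * C.card = W * N'.card + W * N.card := by rw [← hNN]; ring
    have h10 : W * N.card ≤ W * K := Nat.mul_le_mul_left _ hlt.le
    omega
  · push Not at hlt
    have hne : N.Nonempty := by
      rw [← Finset.card_pos]
      omega
    obtain ⟨c, hc, hcmax⟩ := chain_max hG hr ⟨h1, h2, h3, h4, h5⟩ N (Finset.filter_subset _ _) hne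
    have hc' := hc
    rw [hN, mem_filter, mem_up, not_or] at hc'
    obtain ⟨hcC, hcv, hvc⟩ := hc'
    by_cases hcv2 : r c v
    · have hav : r a v := by
        rcases h3 c hcC with h6 | h6
        · rw [← h6]
          exact hcv2
        · exact hG.tr r hr _ _ _ h6 hcv2
      have := Finset.card_le_card (up_sub_up hG hr hav)
      omega
    · have h6 := IK_prod hG hr (x := c) (y := v) hcv hcv2 hvc N (up r v \ up r a)
        (by
          intro x hx
          rw [mem_dn]
          exact hcmax x hx)
        Finset.sdiff_subset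
        (by
          intro d hd u hu hdu
          rw [Finset.mem_sdiff] at hu
          apply hu.2
          rw [mem_up]
          rw [hN, mem_filter] at hd
          rcases h3 d hd.1 with h7 | h7
          · rw [← h7]
            exact Or.inr hdu
          · exact Or.inr (hG.tr r hr _ _ _ h7 hdu))
      have h7 : (up r v \ up r a).card * K ≤ η * K := by
        calc (up r v \ up r a).card * K ≤ (up r v \ up r a).card * N.card := Nat.mul_le_mul_left _ hlt
          _ = N.card * (up r v \ up r a).card := mul_comm _ _
          _ ≤ B := h6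
          _ ≤ η * K := hBK
      have h8 := Nat.le_of_mul_le_mul_right h7 hK
      have h9 : (up r v).card ≤ (up r v \ up r a).card + (up r a).card := by
        rw [Finset.card_sdiff_add_card]
        exact Finset.card_le_card Finset.subset_union_left
      omega

/-- a near-maximiser of the up-set in a later position is below most of the chain -/
theorem chain_low {B : ℕ} {G : (V → V → Prop) → Prop} (hG : GG B G) {r r' : V → V → Prop} (hr : G r)
    (hr' : G r') (hsub : ∀ a b, r a b → r' a b)
    {C : Finset V} {a t : V} (hch : IsCh r C a t) {K η : ℕ} (hK : 0 < K)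
    (hBK : B ≤ η * K) {x : V} (hx : ∀ v, (up r' v).card ≤ (up r' x).card + η) :
    (C \ up r' x).card ≤ K + 2 * η := by
  by_contra hcon
  push Not at hcon
  set N : Finset V := C \ up r' x with hN
  have hne : N.Nonempty := by
    rw [← Finset.card_pos]
    omega
  have hNC : N ⊆ C := Finset.sdiff_subset
  obtain ⟨c, hc, hcmax⟩ := chain_max hG hr hch N hNC hne
  have hch' := hch.mono hsub
  have hNup : N ⊆ up r' a := hNC.trans hch'.sub_up
  have hc' := hc
  rw [hN, Finset.mem_sdiff, mem_up, not_or] at hc'
  obtain ⟨hcC, hcx, hxc⟩ := hc'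
  obtain ⟨h1, h2, h3, h4, h5⟩ := hch'
  have hna := hx a
  by_cases hcx2 : r' c x
  · have hax : r' a x := by
      rcases h3 c hcC with h6 | h6
      · rw [← h6]
        exact hcx2
      · exact hG.tr r' hr' _ _ _ h6 hcx2
    have hdisj : Disjoint N (up r' x) := Finset.sdiff_disjoint
    have h6 : N ∪ up r' x ⊆ up r' a := Finset.union_subset hNup (up_sub_up hG hr' hax)
    have h7 := Finset.card_le_card h6
    rw [Finset.card_union_of_disjoint hdisj] at h7
    omega
  · have h6 := IK_prod hG hr' (x := c) (y := x) hcx hcx2 hxc N (up r' x \ up r' a)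
      (by
        intro d hd
        rw [mem_dn]
        exact (hcmax d hd).imp_right (hsub _ _))
      Finset.sdiff_subset
      (by
        intro d hd u hu hdu
        rw [Finset.mem_sdiff] at hu
        apply hu.2
        rw [mem_up]
        rcases h3 d (hNC hd) with h7 | h7
        · rw [← h7]
          exact Or.inr hdu
        · exact Or.inr (hG.tr r' hr' _ _ _ h7 hdu))
    have h7 : (up r' x \ up r' a).card * K ≤ η * K := by
      calc (up r' x \ up r' a).card * K ≤ (up r' x \ up r' a).card * N.card :=
            Nat.mul_le_mul_left _ (by omega)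
        _ = N.card * (up r' x \ up r' a).card := mul_comm _ _
        _ ≤ B := h6
        _ ≤ η * K := hBK
    have h8 := Nat.le_of_mul_le_mul_right h7 hK
    have hdisj : Disjoint N (up r' x ∩ up r' a) := by
      apply Finset.disjoint_of_subset_right Finset.inter_subset_left
      exact Finset.sdiff_disjoint
    have h9 : N ∪ (up r' x ∩ up r' a) ⊆ up r' a := Finset.union_subset hNup Finset.inter_subset_right
    have h10 := Finset.card_le_card h9
    rw [Finset.card_union_of_disjoint hdisj] at h10
    have h11 : (up r' x \ up r' a).card + (up r' x ∩ up r' a).card = (up r' x).card :=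
      Finset.card_sdiff_add_card_inter _ _
    omega

end Pool.Agent.Lib_helper93.OC
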