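import Pool.Agent.Lib_helper93.OC.Main

set_option autoImplicit false

namespace Pool.Agent.Lib_helper93.OC

open Finset Classical

/-- no directed cycle -/
def Acyc {V : Type} (D : Finset (V × V)) : Prop :=
  ¬ ∃ v : V, Relation.TransGen (fun x y => (x, y) ∈ D) v v

/-- every pair is oriented -/
def Tot {V : Type} (D : Finset (V × V)) : Prop := ∀ i j : V, i ≠ j → (i, j) ∈ D ∨ (j, i) ∈ D

theorem rel_mem {V : Type} [Fintype V] (D : Finset (V × V)) : rel (fun x y => (x, y) ∈ D) = D := by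
  ext p
  rw [mem_rel]

theorem sz_mem {V : Type} [Fintype V] (D : Finset (V × V)) : sz (fun x y => (x, y) ∈ D) = D.card := by
  unfold sz
  rw [rel_mem]

theorem GG_of_game {V : Type} [Fintype V] [DecidableEq V] {b B : ℕ} (hbB : b + 1 ≤ B) (WM WB : Set (Finset (V × V)))
    (h1 : ∀ D : Finset (V × V),
          (∃ v : V, Relation.TransGen (fun x y => (x, y) ∈ D) v v) →
            D ∈ WM ∧ D ∈ WB)
    (h2 : ∀ D : Finset (V × V),
          (∃ i j : V, i ≠ j ∧ (i, j) ∉ D ∧ (j, i) ∉ D ∧ insert (i, j) D ∈ WB) →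
            D ∈ WM)
    (h3 : ∀ D : Finset (V × V),
          (∃ i j : V, i ≠ j ∧ (i, j) ∉ D ∧ (j, i) ∉ D) →
          (∀ A : Finset (V × V), A.Nonempty → A.card ≤ b →
              (∀ p ∈ A, p.1 ≠ p.2 ∧ p ∉ D ∧ p.swap ∉ D ∧ p.swap ∉ A) →
                D ∪ A ∈ WM) →
            D ∈ WB) :
    GG B (fun r : V → V → Prop => ∃ D : Finset (V × V), (D ∉ WM ∨ (Acyc D ∧ Tot D)) ∧
      r = fun x y => (x, y) ∈ D) := by
  have hac : ∀ D : Finset (V × V), (D ∉ WM ∨ (Acyc D ∧ Tot D)) → Acyc D := by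
    intro D hD
    rcases hD with hD | hD
    · intro hc
      exact hD (h1 D hc).1
    · exact hD.1
  refine ⟨?_, ?_, ?_⟩
  · rintro r ⟨D, hD, rfl⟩ x hx
    exact hac D hD ⟨x, Relation.TransGen.single hx⟩
  · rintro r ⟨D, hD, rfl⟩ x y z hxy hyz
    have hA := hac D hD
    have hxz : x ≠ z := by
      rintro rfl
      exact hA ⟨x, Relation.TransGen.tail (Relation.TransGen.single hxy) hyz⟩
    by_contra hcon
    by_cases hzx : (z, x) ∈ D
    · exact hA ⟨x, Relation.TransGen.tail (Relation.TransGen.tail (Relation.TransGen.single hxy) hyz) hzx⟩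
    · rcases hD with hD | hD
      · apply hD
        apply h2 D
        refine ⟨z, x, hxz.symm, hzx, hcon, ?_⟩
        apply (h1 _ ?_).2
        have hx1 : (x, y) ∈ insert (z, x) D := Finset.mem_insert_of_mem hxy
        have hx2 : (y, z) ∈ insert (z, x) D := Finset.mem_insert_of_mem hyz
        have hx3 : (z, x) ∈ insert (z, x) D := Finset.mem_insert_self _ _
        exact ⟨x, Relation.TransGen.tail (Relation.TransGen.tail (Relation.TransGen.single hx1) hx2) hx3⟩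
      · rcases hD.2 x z hxz with h | h
        · exact hcon h
        · exact hzx h
  · rintro r ⟨D, hD, rfl⟩ x y hne hxy hyx
    rcases hD with hD | hD
    · have hWB : insert (x, y) D ∉ WB := by
        intro hc
        exact hD (h2 D ⟨x, y, hne, hxy, hyx, hc⟩)
      have hcard : (insert (x, y) D).card = D.card + 1 := Finset.card_insert_of_notMem hxy
      have hacy : Acyc (insert (x, y) D) := fun hc => hWB (h1 _ hc).2
      by_cases htot : Tot (insert (x, y) D)
      · refine ⟨_, ⟨insert (x, y) D, Or.inr ⟨hacy, htot⟩, rfl⟩, ?_, ?_, ?_⟩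
        · intro a c hac
          exact Finset.mem_insert_of_mem hac
        · exact Finset.mem_insert_self _ _
        · rw [sz_mem, sz_mem, hcard]
          omega
      · have hex : ∃ i j : V, i ≠ j ∧ (i, j) ∉ insert (x, y) D ∧ (j, i) ∉ insert (x, y) D := by
          unfold Tot at htot
          push Not at htot
          exact htot
        have h4 : ¬ ∀ A : Finset (V × V), A.Nonempty → A.card ≤ b →
              (∀ p ∈ A, p.1 ≠ p.2 ∧ p ∉ insert (x, y) D ∧ p.swap ∉ insert (x, y) D ∧ p.swap ∉ A) →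
                insert (x, y) D ∪ A ∈ WM := fun hc => hWB (h3 _ hex hc)
        push Not at h4
        obtain ⟨A, _, hAb, _, hA⟩ := h4
        refine ⟨_, ⟨insert (x, y) D ∪ A, Or.inl hA, rfl⟩, ?_, ?_, ?_⟩
        · intro a c hac
          exact Finset.mem_union_left _ (Finset.mem_insert_of_mem hac)
        · exact Finset.mem_union_left _ (Finset.mem_insert_self _ _)
        · rw [sz_mem, sz_mem]
          have := Finset.card_union_le (insert (x, y) D) A
          omega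
    · exfalso
      rcases hD.2 x y hne with h | h
      · exact hxy h
      · exact hyx h

/-- choice of the parameters -/
theorem exists_par (ε : ℝ) (hε : 0 < ε) : ∃ N : ℕ, ∀ n : ℕ, N ≤ n → ∀ b : ℕ,
    (b : ℝ) ≤ (2 - Real.sqrt 2 - ε) * (n : ℝ) →
    ∃ (B K η : ℕ) (δ ε' : ℝ), b + 1 ≤ B ∧ Par n B K η δ ε' := by
  set e : ℝ := min ε (1 / 100) with he
  have he0 : 0 < e := lt_min hε (by norm_num)
  have he1 : e ≤ 1 / 100 := min_le_right _ _
  have hee : e ≤ ε := min_le_left _ _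
  set δ : ℝ := e / 2000 with hδ
  have hδ0 : 0 < δ := by positivity
  set K : ℕ := ⌈1 / δ⌉₊ with hK
  have hK1 : 1 / δ ≤ K := Nat.le_ceil _
  have hK0 : 0 < K := Nat.ceil_pos.2 (by positivity)
  have hKδ : 1 ≤ (K : ℝ) * δ := by
    rw [div_le_iff₀ hδ0] at hK1
    exact hK1
  refine ⟨K ^ 3 + ⌈K / δ⌉₊ + ⌈2 / e⌉₊ + 100, ?_⟩
  intro n hn b hb
  have hnr : ((K ^ 3 + ⌈K / δ⌉₊ + ⌈2 / e⌉₊ + 100 : ℕ) : ℝ) ≤ n := by exact_mod_cast hn
  push_cast at hnr
  have hc1 : (K : ℝ) / δ ≤ ⌈K / δ⌉₊ := Nat.le_ceil _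
  have hc2 : 2 / e ≤ (⌈2 / e⌉₊ : ℝ) := Nat.le_ceil _
  have hK3 : (0 : ℝ) ≤ (K : ℝ) ^ 3 := by positivity
  have hpos1 : (0 : ℝ) ≤ (K : ℝ) / δ := by positivity
  have hpos2 : (0 : ℝ) ≤ 2 / e := by positivity
  have hn1 : (K : ℝ) / δ ≤ n := by linarith
  have hn2 : 2 / e ≤ n := by linarith
  have hn3 : (100 : ℝ) ≤ n := by linarith
  have hn4 : K ^ 3 ≤ n := by omega
  have hn0 : (0 : ℝ) < n := by linarith
  have hKn : (K : ℝ) ≤ δ * n := by
    rw [div_le_iff₀ hδ0] at hn1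
    linarith
  have hen : 2 ≤ e * n := by
    rw [div_le_iff₀ he0] at hn2
    linarith
  have h1n : 1 ≤ δ * n := by
    have : (1 : ℝ) ≤ K := by exact_mod_cast hK0
    linarith
  have hs2 : Real.sqrt 2 ^ 2 = 2 := Real.sq_sqrt (by norm_num)
  have hs0 : 0 ≤ Real.sqrt 2 := Real.sqrt_nonneg 2
  have hsl : 1.4142 < Real.sqrt 2 := by
    rw [Real.lt_sqrt (by norm_num)]
    norm_num
  have hsu : Real.sqrt 2 < 1.4143 := by
    rw [Real.sqrt_lt' (by norm_num)]
    norm_num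
  set β : ℝ := 2 - Real.sqrt 2 - e / 2 with hβ
  have hβ0 : 0.58 ≤ β := by rw [hβ]; linarith
  have hβ1 : β ≤ 0.586 := by rw [hβ]; linarith
  have hβn2 : 0.58 * (n : ℝ) ≤ β * n := mul_le_mul_of_nonneg_right hβ0 hn0.le
  have hβn1 : β * n ≤ 0.586 * n := mul_le_mul_of_nonneg_right hβ1 hn0.le
  have hβn : 0 ≤ β * n := by linarith
  set B : ℕ := ⌊β * n⌋₊ with hB
  have hB1 : (B : ℝ) ≤ β * n := Nat.floor_le hβn
  have hB2 : β * n < B + 1 := Nat.lt_floor_add_one _
  refine ⟨B, K, n / K + 1, δ, e, ?_, ?_⟩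
  · apply Nat.le_floor
    push_cast
    have h1 : (2 - Real.sqrt 2 - ε) * (n : ℝ) ≤ (2 - Real.sqrt 2 - e) * n :=
      mul_le_mul_of_nonneg_right (by linarith) hn0.le
    have h2 : β * n = (2 - Real.sqrt 2 - e) * n + e * n / 2 := by rw [hβ]; ring
    linarith
  · refine ⟨hδ0, ?_, he0, by linarith, ?_, h1n, hK0, hKn, hKδ, Nat.succ_pos _, ?_, ?_, ?_, ?_, ?_, ?_⟩
    · rw [hδ]
      linarith
    · exact_mod_cast hn0
    · push_cast
      have h1 : ((n / K : ℕ) : ℝ) ≤ (n : ℝ) / K := Nat.cast_div_le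
      have h2 : (n : ℝ) / K ≤ δ * n := by
        rw [div_le_iff₀ (by exact_mod_cast hK0)]
        have h3 : (n : ℝ) * 1 ≤ n * (K * δ) := mul_le_mul_of_nonneg_left hKδ hn0.le
        linarith
      linarith
    · have h1 : n < K * (n / K + 1) := Nat.lt_mul_div_succ n hK0
      have h2 : (B : ℝ) ≤ n := by linarith
      have h3 : B ≤ n := by exact_mod_cast h2
      rw [mul_comm]
      omega
    · have h1 : K * K ≤ n / K := by
        rw [Nat.le_div_iff_mul_le hK0]
        calc K * K * K = K ^ 3 := by ring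
          _ ≤ n := hn4
      omega
    · linarith
    · have h1 : (n : ℝ) ≤ 2 * B + 1 := by linarith
      exact_mod_cast h1
    · have h1 : (Real.sqrt 2 + e / 2) * n ≤ 2 * n - B := by
        have : β * n = 2 * n - (Real.sqrt 2 + e / 2) * n := by rw [hβ]; ring
        linarith
      have h2 : ((Real.sqrt 2 + e / 2) * n) ^ 2 ≤ (2 * n - B) ^ 2 := by
        apply pow_le_pow_left₀ (by positivity) h1
      have h3 : ((Real.sqrt 2 + e / 2) * n) ^ 2 = 2 * (n : ℝ) ^ 2 + Real.sqrt 2 * (e * n ^ 2) + e ^ 2 / 4 * n ^ 2 := by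
        have : ((Real.sqrt 2 + e / 2) * n) ^ 2 = Real.sqrt 2 ^ 2 * (n : ℝ) ^ 2 + Real.sqrt 2 * (e * n ^ 2) + e ^ 2 / 4 * n ^ 2 := by
          ring
        rw [this, hs2]
      have h5 : 0 ≤ e * (n : ℝ) ^ 2 := by positivity
      have h4 : 1 * (e * (n : ℝ) ^ 2) ≤ Real.sqrt 2 * (e * n ^ 2) :=
        mul_le_mul_of_nonneg_right (by linarith) h5
      have h6 : 0 ≤ e ^ 2 / 4 * (n : ℝ) ^ 2 := by positivity
      have h7 : (2 * (n : ℝ) - B) ^ 2 = 2 * ((n : ℝ) - B) ^ 2 - (B : ℝ) ^ 2 + 2 * (n : ℝ) ^ 2 := by ring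
      linarith

end Pool.Agent.Lib_helper93.OC
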