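import Pool.Agent.Lib_helper93.OC.Chain

set_option autoImplicit false

namespace Pool.Agent.Lib_helper93.OC

open Finset Classical

variable {V : Type} [Fintype V]

theorem sum_op (r : V → V → Prop) (S : Finset V) :
    ∑ x ∈ S, (uo (op r) x).card = ((rel r).filter (fun p => p.2 ∈ S)).card := by
  rw [sum_uo]
  refine Finset.card_bij' (fun p _ => p.swap) (fun p _ => p.swap) ?_ ?_ ?_ ?_
  · intro p hp
    rw [mem_filter, mem_rel] at hp ⊢
    exact hp
  · intro p hp
    rw [mem_filter, mem_rel] at hp ⊢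
    exact hp
  · intro p _
    exact Prod.swap_swap p
  · intro p _
    exact Prod.swap_swap p

theorem arith_pairs (k E c Z : ℤ) (h1 : c * c ≤ 2 * Z + c) (h2 : k ≤ c + 2 * E) (h4 : 0 ≤ E)
    (h5 : 0 ≤ Z) (h7 : 0 ≤ k) : k ^ 2 - (4 * E + 1) * k ≤ 2 * Z := by
  by_cases h8 : k ≤ 2 * E
  · have h9 : k * k ≤ k * (2 * E) := mul_le_mul_of_nonneg_left h8 h7
    have h10 : 0 ≤ k * E := mul_nonneg h7 h4
    nlinarith
  · push Not at h8
    have h9 : (k - 2 * E) * (k - 2 * E - 1) ≤ c * (c - 1) := by
      apply mul_le_mul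
      · linarith
      · linarith
      · linarith
      · linarith
    have h10 : 0 ≤ E * (2 * E + 1) := by positivity
    have h11 : (k - 2 * E) * (k - 2 * E - 1) = k ^ 2 - (4 * E + 1) * k + 2 * (E * (2 * E + 1)) := by ring
    have h12 : c * (c - 1) = c * c - c := by ring
    linarith

omit [Fintype V] in
/-- number of related pairs in a chain -/
theorem chain_pairs {r : V → V → Prop} (C : Finset V) (h : ∀ x ∈ C, ∀ y ∈ C, x = y ∨ r x y ∨ r y x) :
    C.card * C.card ≤ 2 * ((C.offDiag).filter (fun p => r p.1 p.2)).card + C.card := by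
  have h1 : (C.offDiag).card = C.card * C.card - C.card := Finset.offDiag_card C
  have h2 : C.offDiag ⊆ (C.offDiag).filter (fun p => r p.1 p.2) ∪ (C.offDiag).filter (fun p => r p.2 p.1) := by
    intro p hp
    rw [Finset.mem_union, mem_filter, mem_filter]
    rw [Finset.mem_offDiag] at hp
    rcases h p.1 hp.1 p.2 hp.2.1 with h3 | h3 | h3
    · exact absurd h3 hp.2.2
    · exact Or.inl ⟨Finset.mem_offDiag.2 hp, h3⟩
    · exact Or.inr ⟨Finset.mem_offDiag.2 hp, h3⟩
  have h3 : ((C.offDiag).filter (fun p => r p.2 p.1)).card = ((C.offDiag).filter (fun p => r p.1 p.2)).card := by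
    refine Finset.card_bij' (fun p _ => p.swap) (fun p _ => p.swap) ?_ ?_ ?_ ?_
    · intro p hp
      rw [mem_filter, Finset.mem_offDiag] at hp ⊢
      exact ⟨⟨hp.1.2.1, hp.1.1, hp.1.2.2.symm⟩, hp.2⟩
    · intro p hp
      rw [mem_filter, Finset.mem_offDiag] at hp ⊢
      exact ⟨⟨hp.1.2.1, hp.1.1, hp.1.2.2.symm⟩, hp.2⟩
    · intro p _
      exact Prod.swap_swap p
    · intro p _
      exact Prod.swap_swap p
  have h4 := (Finset.card_le_card h2).trans (Finset.card_union_le _ _)
  omega

theorem lemQ {B : ℕ} {G : (V → V → Prop) → Prop} (hG : GG B G) (hn : Fintype.card V ≤ 2 * B + 1)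
    {r r' : V → V → Prop} (hr : G r) (hr' : G r') (hsub : ∀ a b, r a b → r' a b)
    (hsz : sz r' ≤ sz r + B) {W : ℕ} {C : Finset V} {a t : V} (h : FM r W C a t) {K η : ℕ}
    (hK : 0 < K) (hη : 0 < η) (hKC : K ≤ C.card) (hBK : B ≤ η * K) (hWK : W * K ≤ η) {x y : V}
    (hx : ∀ v, (up r' v).card ≤ (up r' x).card + η) (hy : ∀ v, (dn r' v).card ≤ (dn r' y).card + η)
    (n P' Q' p q k E Bd : ℤ) (hnn : n = Fintype.card V) (hP' : P' = (up r' x).card)
    (hQ' : Q' = (dn r' y).card) (hp : p = (up r a).card) (hq : q = (dn r t).card) (hk : k = C.card)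
    (hE : E = K + 2 * η) (hBd : Bd = 2 * η * n + n * K) :
    2 * (n - B) * (n - P') + 2 * (n - B) * (n - Q') ≤ (n - P') * (n - P' + 1) + (n - Q') * (n - Q' + 1)
      + 2 * sz r + 4 * B + 4 * Bd + 2 * ((p - k + E) * (q - k + E)) - (k ^ 2 - (4 * E + 1) * k) := by
  -- the two runs
  have hF1 := Lrun hG hn _ r' hr' x rfl
  have hF2 := Lrun hG.op hn _ (op r') hr' y rfl
  have hc1 : (up r' x).card + ((up r' x)ᶜ).card = Fintype.card V := Finset.card_add_card_compl _
  have hc2 : (up (op r') y).card + ((up (op r') y)ᶜ).card = Fintype.card V := Finset.card_add_card_compl _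
  have hm1 : (((up r' x)ᶜ).card : ℤ) = n - P' := by
    rw [hnn, hP']
    have : ((up r' x).card : ℤ) + ((up r' x)ᶜ).card = Fintype.card V := by exact_mod_cast hc1
    linarith
  have hm2 : (((up (op r') y)ᶜ).card : ℤ) = n - Q' := by
    rw [hnn, hQ']
    have : ((up (op r') y).card : ℤ) + ((up (op r') y)ᶜ).card = Fintype.card V := by exact_mod_cast hc2
    have h2 : dn r' y = up (op r') y := rfl
    rw [h2]
    linarith
  have hs1 : ∑ z ∈ (up r' x)ᶜ, ((uo r' z).card : ℤ)
      = (((rel r').filter (fun p => p.1 ∈ (up r' x)ᶜ)).card : ℤ) := by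
    rw [← sum_uo]
    push_cast
    rfl
  have hs2 : ∑ z ∈ (up (op r') y)ᶜ, ((uo (op r') z).card : ℤ)
      = (((rel r').filter (fun p => p.2 ∈ (dn r' y)ᶜ)).card : ℤ) := by
    rw [← sum_op]
    push_cast
    rfl
  rw [hs1, hm1, ← hnn] at hF1
  rw [hs2, hm2, ← hnn] at hF2
  set A1 : Finset (V × V) := (rel r').filter (fun p => p.1 ∈ (up r' x)ᶜ) with hA1
  set A2 : Finset (V × V) := (rel r').filter (fun p => p.2 ∈ (dn r' y)ᶜ) with hA2
  set Z : Finset (V × V) := (rel r').filter (fun p => p.1 ∈ up r' x ∧ p.2 ∈ dn r' y) with hZ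
  have hAA : A1.card + A2.card = (A1 ∪ A2).card + (A1 ∩ A2).card := (Finset.card_union_add_card_inter _ _).symm
  have hAZ : (A1 ∪ A2).card + Z.card ≤ sz r' := by
    have hd : Disjoint (A1 ∪ A2) Z := by
      rw [Finset.disjoint_left]
      intro w hw hwZ
      rw [hZ, mem_filter] at hwZ
      rw [Finset.mem_union, hA1, hA2, mem_filter, mem_filter, Finset.mem_compl, Finset.mem_compl] at hw
      rcases hw with hw | hw
      · exact hw.2 hwZ.2.1
      · exact hw.2 hwZ.2.2
    rw [← Finset.card_union_of_disjoint hd]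
    unfold sz
    apply Finset.card_le_card
    intro w hw
    rw [Finset.mem_union, Finset.mem_union, hA1, hA2, hZ, mem_filter, mem_filter, mem_filter] at hw
    rcases hw with (hw | hw) | hw
    · exact hw.1
    · exact hw.1
    · exact hw.1
  -- chain in the complement
  have hch := h.1
  have hlow := chain_low hG hr hr' hsub hch hK hBK hx
  have hhigh := chain_low hG.op (r := op r) (r' := op r') hr hr' (fun a b hab => hsub b a hab) hch.op hK hBK hy
  have hhigh' : (C \ dn r' y).card ≤ K + 2 * η := hhigh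
  set C' : Finset V := (C ∩ up r' x) ∩ dn r' y with hC'
  have hC'card : C.card ≤ C'.card + 2 * (K + 2 * η) := by
    have h1 : C ⊆ C' ∪ ((C \ up r' x) ∪ (C \ dn r' y)) := by
      intro c hc
      simp only [hC', Finset.mem_union, Finset.mem_inter, Finset.mem_sdiff]
      by_cases h1 : c ∈ up r' x
      · by_cases h2 : c ∈ dn r' y
        · exact Or.inl ⟨⟨hc, h1⟩, h2⟩
        · exact Or.inr (Or.inr ⟨hc, h2⟩)
      · exact Or.inr (Or.inl ⟨hc, h1⟩)
    have h2 := Finset.card_le_card h1
    have h3 := Finset.card_union_le C' ((C \ up r' x) ∪ (C \ dn r' y))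
    have h4 := Finset.card_union_le (C \ up r' x) (C \ dn r' y)
    omega
  have hC'sub : C' ⊆ C := fun c hc => (Finset.mem_inter.1 (Finset.mem_inter.1 hc).1).1
  have hpairs := chain_pairs (r := r') C' (by
    intro u hu v hv
    exact (hch.mono hsub).2.2.2.2 u (hC'sub hu) v (hC'sub hv))
  have hpz : ((C'.offDiag).filter (fun p => r' p.1 p.2)).card ≤ Z.card := by
    apply Finset.card_le_card
    intro w hw
    rw [mem_filter, Finset.mem_offDiag] at hw
    rw [hZ, mem_filter, mem_rel]
    exact ⟨hw.2, (Finset.mem_inter.1 (Finset.mem_inter.1 hw.1.1).1).2, (Finset.mem_inter.1 hw.1.2.1).2⟩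
  have hZ2 : k ^ 2 - (4 * E + 1) * k ≤ 2 * (Z.card : ℤ) := by
    have h1 : (C'.card : ℤ) * C'.card ≤ 2 * Z.card + C'.card := by
      have : C'.card * C'.card ≤ 2 * Z.card + C'.card := by omega
      exact_mod_cast this
    have h2 : k ≤ C'.card + 2 * E := by
      rw [hk, hE]
      have : (C.card : ℤ) ≤ (C'.card : ℤ) + 2 * (K + 2 * η) := by exact_mod_cast hC'card
      linarith
    have h3 : (C'.card : ℤ) ≤ k := by
      rw [hk]
      exact_mod_cast Finset.card_le_card hC'sub
    have h4 : (0 : ℤ) ≤ E := by rw [hE]; positivity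
    have h5 : (0 : ℤ) ≤ Z.card := by positivity
    have h6 : (0 : ℤ) ≤ C'.card := by positivity
    have h7 : (0 : ℤ) ≤ k := by rw [hk]; positivity
    exact arith_pairs k E _ _ h1 h2 h4 h5 h7
  -- the doubly outside relations
  have hbad1 : ((rel r).filter (fun p => p.1 ∉ dn r t)).card
      ≤ 2 * η * Fintype.card V + Fintype.card V * K :=
    bad hG hr hη hBK (h.top hG hr) (fun b => FM.near hG.op (r := op r) hr h.op hK hKC hBK hWK b)
  have hbad2 : ((rel r).filter (fun p => p.2 ∉ up r a)).card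
      ≤ 2 * η * Fintype.card V + Fintype.card V * K := by
    have h1 := bad hG.op (r := op r) hr (t := a) hη hBK (h.bot hG hr)
      (fun b => FM.near hG hr h hK hKC hBK hWK b)
    refine le_trans (le_of_eq ?_) h1
    refine Finset.card_bij' (fun p _ => p.swap) (fun p _ => p.swap) ?_ ?_ ?_ ?_
    · intro p hp
      rw [mem_filter, mem_rel] at hp ⊢
      exact hp
    · intro p hp
      rw [mem_filter, mem_rel] at hp ⊢
      exact hp
    · intro p _
      exact Prod.swap_swap p
    · intro p _
      exact Prod.swap_swap p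
  have h11 : A1 ∩ A2 ⊆ (rel r' \ rel r) ∪ (((rel r).filter (fun p => p.1 ∉ dn r t))
      ∪ (((rel r).filter (fun p => p.2 ∉ up r a)) ∪ ((dn r t \ up r' x) ×ˢ (up r a \ dn r' y)))) := by
    intro w hw
    simp only [hA1, hA2, Finset.mem_inter, mem_filter, Finset.mem_compl] at hw
    simp only [Finset.mem_union, Finset.mem_sdiff, mem_filter, Finset.mem_product]
    obtain ⟨⟨hw1, hw2⟩, _, hw3⟩ := hw
    by_cases h1 : w ∈ rel r
    · by_cases h2 : w.1 ∈ dn r t
      · by_cases h3 : w.2 ∈ up r a
        · exact Or.inr (Or.inr (Or.inr ⟨⟨h2, hw2⟩, h3, hw3⟩))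
        · exact Or.inr (Or.inr (Or.inl ⟨h1, h3⟩))
      · exact Or.inr (Or.inl ⟨h1, h2⟩)
    · exact Or.inl ⟨hw1, h1⟩
  have h12 := Finset.card_le_card h11
  have h13 : (rel r' \ rel r).card ≤ B := by
    have h1 : (rel r' \ rel r).card + (rel r).card = (rel r').card :=
      Finset.card_sdiff_add_card_eq_card (rel_mono hsub)
    unfold sz at hsz
    omega
  have h14 := Finset.card_union_le (rel r' \ rel r) (((rel r).filter (fun p => p.1 ∉ dn r t))
      ∪ (((rel r).filter (fun p => p.2 ∉ up r a)) ∪ ((dn r t \ up r' x) ×ˢ (up r a \ dn r' y))))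
  have h15 := Finset.card_union_le ((rel r).filter (fun p => p.1 ∉ dn r t))
      (((rel r).filter (fun p => p.2 ∉ up r a)) ∪ ((dn r t \ up r' x) ×ˢ (up r a \ dn r' y)))
  have h16 := Finset.card_union_le ((rel r).filter (fun p => p.2 ∉ up r a))
      ((dn r t \ up r' x) ×ˢ (up r a \ dn r' y))
  rw [Finset.card_product] at h16
  -- sizes of the two sides of the product
  have h17 : (dn r t \ up r' x).card + C.card ≤ (dn r t).card + (K + 2 * η) := by
    have h1 : (dn r t \ up r' x).card + (dn r t ∩ up r' x).card = (dn r t).card :=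
      Finset.card_sdiff_add_card_inter _ _
    have h2 : (C \ up r' x).card + (C ∩ up r' x).card = C.card :=
      Finset.card_sdiff_add_card_inter _ _
    have h3 : (C ∩ up r' x).card ≤ (dn r t ∩ up r' x).card := by
      apply Finset.card_le_card
      exact Finset.inter_subset_inter hch.sub_dn (Finset.Subset.refl _)
    omega
  have h18 : (up r a \ dn r' y).card + C.card ≤ (up r a).card + (K + 2 * η) := by
    have h1 : (up r a \ dn r' y).card + (up r a ∩ dn r' y).card = (up r a).card :=
      Finset.card_sdiff_add_card_inter _ _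
    have h2 : (C \ dn r' y).card + (C ∩ dn r' y).card = C.card :=
      Finset.card_sdiff_add_card_inter _ _
    have h3 : (C ∩ dn r' y).card ≤ (up r a ∩ dn r' y).card := by
      apply Finset.card_le_card
      exact Finset.inter_subset_inter hch.sub_up (Finset.Subset.refl _)
    omega
  have h19 : ((dn r t \ up r' x).card : ℤ) ≤ q - k + E := by
    have : ((dn r t \ up r' x).card : ℤ) + C.card ≤ (dn r t).card + (K + 2 * η) := by exact_mod_cast h17
    rw [hq, hk, hE]
    linarith
  have h20 : ((up r a \ dn r' y).card : ℤ) ≤ p - k + E := by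
    have : ((up r a \ dn r' y).card : ℤ) + C.card ≤ (up r a).card + (K + 2 * η) := by exact_mod_cast h18
    rw [hp, hk, hE]
    linarith
  have h21 : ((dn r t \ up r' x).card : ℤ) * (up r a \ dn r' y).card ≤ (p - k + E) * (q - k + E) := by
    have h1 : (0 : ℤ) ≤ (dn r t \ up r' x).card := by positivity
    have h2 : (0 : ℤ) ≤ (up r a \ dn r' y).card := by positivity
    calc ((dn r t \ up r' x).card : ℤ) * (up r a \ dn r' y).card ≤ (q - k + E) * (p - k + E) :=
          mul_le_mul h19 h20 h2 (le_trans h1 h19)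
      _ = (p - k + E) * (q - k + E) := by ring
  have h22 : ((A1 ∩ A2).card : ℤ) ≤ B + (2 * Bd + (p - k + E) * (q - k + E)) := by
    have h1 : (A1 ∩ A2).card ≤ B + (2 * (2 * η * Fintype.card V + Fintype.card V * K)
        + (dn r t \ up r' x).card * (up r a \ dn r' y).card) := by omega
    have h2 : ((A1 ∩ A2).card : ℤ) ≤ B + (2 * (2 * η * Fintype.card V + Fintype.card V * K)
        + (dn r t \ up r' x).card * (up r a \ dn r' y).card) := by exact_mod_cast h1
    rw [← hnn] at h2
    rw [hBd]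
    linarith
  have h23 : (A1.card : ℤ) + A2.card = (A1 ∪ A2).card + (A1 ∩ A2).card := by exact_mod_cast hAA
  have h24 : ((A1 ∪ A2).card : ℤ) + Z.card ≤ sz r' := by exact_mod_cast hAZ
  have h25 : (sz r' : ℤ) ≤ sz r + B := by exact_mod_cast hsz
  linarith

end Pool.Agent.Lib_helper93.OC
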