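import Pool.Agent.Lib_helper93.OC.Round
import Pool.Agent.Lib_helper93.OC.Arith

set_option autoImplicit false

namespace Pool.Agent.Lib_helper93.OC

open Finset Classical

variable {V : Type} [Fintype V]

/-- the parameters -/
structure Par (n B K η : ℕ) (δ ε : ℝ) : Prop where
  hδ0 : 0 < δ
  hδ : 2000 * δ ≤ ε
  hε0 : 0 < ε
  hε1 : ε ≤ 1
  hn0 : 0 < n
  h1n : 1 ≤ δ * n
  hK0 : 0 < K
  hKn : (K : ℝ) ≤ δ * n
  hKδ : 1 ≤ K * δ
  hη0 : 0 < η
  hηn : (η : ℝ) ≤ 2 * δ * n
  hBK : B ≤ η * K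
  hWK : K * K ≤ η
  hBn : (B : ℝ) ≤ 0.59 * n
  hnB : n ≤ 2 * B + 1
  hs : ε * (n : ℝ) ^ 2 ≤ 2 * ((n : ℝ) - B) ^ 2 - (B : ℝ) ^ 2

theorem chain_len {n B K η : ℕ} {δ ε : ℝ} (par : Par n B K η δ ε) (hcard : Fintype.card V = n)
    {r : V → V → Prop} {C : Finset V} {a t : V} {T : ℕ} (hFF : K * (T + 1) ≤ FF r K C a t) :
    (T : ℝ) + 1 - 2 * δ * n ≤ C.card := by
  have h1 : (up r a).card ≤ n := hcard ▸ Finset.card_le_univ _
  have h2 : (dn r t).card ≤ n := hcard ▸ Finset.card_le_univ _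
  have h3 : K * (T + 1) ≤ K * C.card + 2 * n := by
    unfold FF at hFF
    omega
  have h4 : (K : ℝ) * (T + 1) ≤ K * C.card + 2 * n := by exact_mod_cast h3
  have h5 : (0 : ℝ) < K := by exact_mod_cast par.hK0
  have h6 : (n : ℝ) ≤ K * (δ * n) := by
    have := par.hKδ
    have hn : (0 : ℝ) ≤ n := by positivity
    nlinarith
  have h7 : (K : ℝ) * (T + 1 - 2 * δ * n) ≤ K * C.card := by nlinarith
  exact le_of_mul_le_mul_left h7 h5

theorem Qreal {n B K η : ℕ} {δ ε : ℝ} (par : Par n B K η δ ε) (hcard : Fintype.card V = n)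
    {G : (V → V → Prop) → Prop} (hG : GG B G)
    {r r' : V → V → Prop} (hr : G r) (hr' : G r') (hsub : ∀ a b, r a b → r' a b)
    (hsz : sz r' ≤ sz r + B) {C : Finset V} {a t : V} (h : FM r K C a t) {T : ℕ} (hTn : T ≤ n)
    (hS : sz r ≤ B * T) (hFF : K * (T + 1) ≤ FF r K C a t) (hKC : K ≤ C.card) {x y : V}
    (hx : ∀ v, (up r' v).card ≤ (up r' x).card + η) (hy : ∀ v, (dn r' v).card ≤ (dn r' y).card + η) :
    2 * ((n : ℝ) - B) ^ 2 ≤ ((B : ℝ) - (up r' x).card) ^ 2 + ((B : ℝ) - (dn r' y).card) ^ 2 + 2 * B * T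
      + 2 * (((up r a).card : ℝ) - T) * (((dn r t).card : ℝ) - T) - (T : ℝ) ^ 2 + 76 * δ * (n : ℝ) ^ 2 := by
  have hnB : Fintype.card V ≤ 2 * B + 1 := by rw [hcard]; exact par.hnB
  have hQ := lemQ hG hnB hr hr' hsub hsz h par.hK0 par.hη0 hKC par.hBK par.hWK hx hy
    (Fintype.card V : ℤ) ((up r' x).card : ℤ) ((dn r' y).card : ℤ) ((up r a).card : ℤ)
    ((dn r t).card : ℤ) (C.card : ℤ) (K + 2 * η) (2 * η * (Fintype.card V : ℤ) + (Fintype.card V : ℤ) * K)
    rfl rfl rfl rfl rfl rfl rfl rfl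
  rw [hcard] at hQ
  have hQr : 2 * ((n : ℝ) - B) * (n - (up r' x).card) + 2 * ((n : ℝ) - B) * (n - (dn r' y).card)
      ≤ ((n : ℝ) - (up r' x).card) * (n - (up r' x).card + 1)
      + (n - (dn r' y).card) * (n - (dn r' y).card + 1) + 2 * (sz r : ℝ) + 4 * B
      + 4 * (2 * η * (n : ℝ) + n * K) + 2 * (((up r a).card - (C.card : ℝ) + (K + 2 * η))
        * ((dn r t).card - (C.card : ℝ) + (K + 2 * η)))
      - ((C.card : ℝ) ^ 2 - (4 * (K + 2 * η) + 1) * C.card) := by
    exact_mod_cast hQ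
  have hn0 : (0 : ℝ) < n := by exact_mod_cast par.hn0
  have hδ0 := par.hδ0
  have hδ := par.hδ
  have hε1 := par.hε1
  have hKn := par.hKn
  have hηn := par.hηn
  have c1 : (up r' x).card ≤ n := hcard ▸ Finset.card_le_univ _
  have c2 : (dn r' y).card ≤ n := hcard ▸ Finset.card_le_univ _
  have c3 : (up r a).card ≤ n := hcard ▸ Finset.card_le_univ _
  have c4 : (dn r t).card ≤ n := hcard ▸ Finset.card_le_univ _
  have c5 : C.card ≤ (up r a).card := Finset.card_le_card h.1.sub_up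
  have c6 : C.card ≤ (dn r t).card := Finset.card_le_card h.1.sub_dn
  have hlen := chain_len par hcard hFF
  have hBn := par.hBn
  refine arith_Q (n : ℝ) B _ _ _ _ (C.card : ℝ) (K + 2 * η) (2 * η * (n : ℝ) + n * K) (sz r : ℝ) T δ hQr
    hδ0 (by linarith) par.h1n hn0 (by positivity) (by linarith) (by positivity) (by positivity)
    (by positivity) (by linarith) ?_ (by exact_mod_cast hS) (by positivity) (by exact_mod_cast hTn)
    (by positivity) (by exact_mod_cast c5) (by exact_mod_cast c6) (by exact_mod_cast c3)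
    (by exact_mod_cast c4) (by linarith)
  have h1 : (η : ℝ) * n ≤ 2 * δ * n * n := mul_le_mul_of_nonneg_right hηn hn0.le
  have h2 : (K : ℝ) * n ≤ δ * n * n := mul_le_mul_of_nonneg_right hKn hn0.le
  linarith

theorem dichotomy {n B K η : ℕ} {δ ε : ℝ} (par : Par n B K η δ ε) (hcard : Fintype.card V = n)
    {G : (V → V → Prop) → Prop} (hG : GG B G)
    {r : V → V → Prop} (hr : G r) {C : Finset V} {a t : V} (h : FM r K C a t) {T : ℕ} (hTn : T ≤ n)
    (hS : sz r ≤ B * T) (hFF : K * (T + 1) ≤ FF r K C a t) (hKC : K ≤ C.card) :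
    (ε / 2 * (n : ℝ)) ^ 2 ≤ (((up r a).card : ℝ) + (dn r t).card - (B + T)) ^ 2 := by
  have hQ := Qreal par hcard hG hr hr (fun _ _ h => h) (Nat.le_add_right _ _) h hTn hS hFF hKC
    (fun v => FM.near hG hr h par.hK0 hKC par.hBK par.hWK v)
    (fun v => FM.near hG.op (r := op r) hr h.op par.hK0 hKC par.hBK par.hWK v)
  have hδ := par.hδ
  have hδ0 := par.hδ0
  exact arith_dich (n : ℝ) B _ _ T δ ε hQ par.hs par.hε0 par.hε1 (by linarith) (by exact_mod_cast par.hn0)

/-- low state at time T -/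
def St (G : (V → V → Prop) → Prop) (B K T : ℕ) : Prop :=
  ∃ r, G r ∧ sz r ≤ B * T ∧ ∃ C a t, FM r K C a t ∧ K * (T + 1) ≤ FF r K C a t ∧
    (up r a).card + (dn r t).card < B + T

theorem St.of_op {G : (V → V → Prop) → Prop} {B K T : ℕ} (h : St (fun r => G (op r)) B K T) :
    St G B K T := by
  obtain ⟨r, hr, hsz, C, a, t, h1, h2, h3⟩ := h
  refine ⟨op r, hr, by rw [sz_op]; exact hsz, C, t, a, h1.op, ?_, ?_⟩
  · rw [FF_op]
    exact h2
  · rw [add_comm]
    exact h3

theorem le_of_sq_neg {x y : ℝ} (hx : 0 ≤ x) (hy : y < 0) (h : x ^ 2 ≤ y ^ 2) : y ≤ -x := by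
  by_contra hc
  push Not at hc
  nlinarith

theorem le_of_sq_pos {x y : ℝ} (hx : 0 ≤ x) (hy : 0 ≤ y) (h : x ^ 2 ≤ y ^ 2) : x ≤ y := by
  by_contra hc
  push Not at hc
  nlinarith

theorem step_le {n B K η : ℕ} {δ ε : ℝ} (par : Par n B K η δ ε) (hcard : Fintype.card V = n)
    {G : (V → V → Prop) → Prop} (hG : GG B G)
    {r : V → V → Prop} (hr : G r) {C : Finset V} {a t : V} (h : FM r K C a t) {T : ℕ} (hTn : T + 1 ≤ n)
    (hT0 : 3 * δ * n ≤ T)
    (hS : sz r ≤ B * T) (hFF : K * (T + 1) ≤ FF r K C a t)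
    (hlow : (up r a).card + (dn r t).card < B + T) (hqp : (dn r t).card ≤ (up r a).card) :
    St G B K (T + 1) := by
  have hn0 : (0 : ℝ) < n := by exact_mod_cast par.hn0
  have hδ0 := par.hδ0
  have hδ := par.hδ
  have hε0 := par.hε0
  have hε1 := par.hε1
  have hKn := par.hKn
  have hηn := par.hηn
  have h1n := par.h1n
  have hBn := par.hBn
  have hδn : 0 < δ * n := by positivity
  have hεn : 0 < ε * n := by positivity
  have hδε : δ * n ≤ ε * n / 2000 := by nlinarith
  have hlen := chain_len par hcard hFF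
  have hKC : K ≤ C.card := by
    have : (K : ℝ) ≤ C.card := by linarith
    exact_mod_cast this
  have hD := dichotomy par hcard hG hr h (by omega) hS hFF hKC
  have hlow' : ((up r a).card : ℝ) + (dn r t).card < B + T := by exact_mod_cast hlow
  have hlow2 := le_of_sq_neg (by positivity) (by linarith) hD
  -- the cheap element
  have hcB : B < Fintype.card V := by
    rw [hcard]
    have : (B : ℝ) < n := by linarith
    exact_mod_cast this
  have hsm : (up r a).card + (dn r t).card ≤ B + C.card := by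
    have : ((up r a).card : ℝ) + (dn r t).card ≤ B + C.card := by linarith
    exact_mod_cast this
  obtain ⟨z, hza, hzt, hz⟩ := exists_cheap hG hr h par.hK0 par.hη0 hKC par.hBK par.hWK hcB hsm
  have hz' := hza
  rw [mem_up, not_or] at hz'
  obtain ⟨r', hr', hsub, hza', hsz⟩ := hG.step r hr z a hz'.1 (h.bot hG hr z) hz'.2
  have : Nonempty V := ⟨a⟩
  obtain ⟨C2, a2, t2, h2⟩ := exists_FM r' K
  have hFF2 := FM_step hG hr' hsub h h2 hza'
  have hFF3 : K * (T + 1 + 1) ≤ FF r' K C2 a2 t2 := by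
    have : K * (T + 1 + 1) = K * (T + 1) + K := by ring
    omega
  have hS2 : sz r' ≤ B * (T + 1) := by
    have : B * (T + 1) = B * T + B := by ring
    omega
  refine ⟨r', hr', hS2, C2, a2, t2, h2, hFF3, ?_⟩
  by_contra hhigh
  push Not at hhigh
  have hlen2 := chain_len par hcard hFF3
  have hKC2 : K ≤ C2.card := by
    have : (K : ℝ) ≤ C2.card := by
      push_cast at hlen2
      linarith
    exact_mod_cast this
  have hD2 := dichotomy par hcard hG hr' h2 hTn hS2 hFF3 hKC2
  have hhigh' : (B : ℝ) + (T + 1) ≤ ((up r' a2).card : ℝ) + (dn r' t2).card := by exact_mod_cast hhigh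
  push_cast at hD2
  have hhigh2 := le_of_sq_pos (by positivity) (by linarith) hD2
  have hx : ∀ v, (up r' v).card ≤ (up r' a2).card + η :=
    fun v => FM.near hG hr' h2 par.hK0 hKC2 par.hBK par.hWK v
  have hy : ∀ v, (dn r' v).card ≤ (dn r' t2).card + η :=
    fun v => FM.near hG.op (r := op r') hr' h2.op par.hK0 hKC2 par.hBK par.hWK v
  have hQ := Qreal par hcard hG hr hr' hsub hsz h (by omega) hS hFF hKC hx hy
  have hR := round_bound hG hr hr' hsub hsz hza'
    (fun v => FM.near hG hr h par.hK0 hKC par.hBK par.hWK v)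
    (fun v => FM.near hG.op (r := op r) hr h.op par.hK0 hKC par.hBK par.hWK v) a2 t2
  have hR' : ((up r' a2).card : ℝ) + (dn r' t2).card
      ≤ B + (dn r t).card + 2 * η + 2 + (uo r z).card := by exact_mod_cast hR
  -- size of the up-set of the cheap element
  have hzr : ((uo r z).card : ℝ) * (n - B) ≤ 2 * η * n + n * K := by
    rw [hcard] at hz
    have h1 : (((uo r z).card * (n - B) : ℕ) : ℝ) ≤ ((2 * η * n + n * K : ℕ) : ℝ) := by exact_mod_cast hz
    rw [Nat.cast_mul, Nat.cast_sub (by rw [← hcard]; exact hcB.le)] at h1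
    push_cast at h1
    exact h1
  have hzs : ((uo r z).card : ℝ) ≤ 13 * δ * n := by
    have h1 : ((uo r z).card : ℝ) * (0.41 * n) ≤ ((uo r z).card : ℝ) * (n - B) :=
      mul_le_mul_of_nonneg_left (by linarith) (by positivity)
    have h2 : (η : ℝ) * n ≤ 2 * δ * n * n := mul_le_mul_of_nonneg_right hηn hn0.le
    have h3 : (K : ℝ) * n ≤ δ * n * n := mul_le_mul_of_nonneg_right hKn hn0.le
    have h4 : ((uo r z).card : ℝ) * (0.41 * n) ≤ (13 * δ * n) * (0.41 * n) := by nlinarith
    exact le_of_mul_le_mul_right h4 (by positivity)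
  have hPp : ((up r a).card : ℝ) ≤ (up r' a2).card + η := by
    have h1 := hx a
    have h2 := Finset.card_le_card (up_mono hsub a)
    exact_mod_cast h2.trans h1
  have hQq : ((dn r t).card : ℝ) ≤ (dn r' t2).card + η := by
    have h1 := hy t
    have h2 : (dn r t).card ≤ (dn r' t).card :=
      Finset.card_le_card (up_mono (r := op r) (r' := op r') (fun a b hab => hsub b a hab) t)
    exact_mod_cast h2.trans h1
  have c1 : (up r' a2).card ≤ n := hcard ▸ Finset.card_le_univ _
  have c2 : (dn r' t2).card ≤ n := hcard ▸ Finset.card_le_univ _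
  have c4 : (dn r t).card ≤ n := hcard ▸ Finset.card_le_univ _
  exact arith_round (n : ℝ) B T _ _ _ _ δ ε hQ par.hs hε0 hε1 hδ0 (by linarith) hn0
    (by linarith) (by linarith) (by linarith) (by linarith) (by exact_mod_cast hqp) (by linarith)
    (by positivity) (by positivity) (by exact_mod_cast c4) (by exact_mod_cast c1) (by exact_mod_cast c2)

theorem St.step {n B K η : ℕ} {δ ε : ℝ} (par : Par n B K η δ ε) (hcard : Fintype.card V = n)
    {G : (V → V → Prop) → Prop} (hG : GG B G) {T : ℕ} (hTn : T + 1 ≤ n)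
    (hT0 : 3 * δ * n ≤ T) (h : St G B K T) : St G B K (T + 1) := by
  obtain ⟨r, hr, hsz, C, a, t, h1, h2, h3⟩ := h
  rcases le_total (dn r t).card (up r a).card with h4 | h4
  · exact step_le par hcard hG hr h1 hTn hT0 hsz h2 h3 h4
  · apply St.of_op
    have h5 : FF (op r) K C t a = FF r K C a t := FF_op r K C a t
    exact step_le par hcard hG.op (r := op r) hr h1.op hTn hT0 (by rw [sz_op]; exact hsz)
      (by rw [h5]; exact h2) (by rw [add_comm] at h3; exact h3) h4

/-- the initial phase -/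
def St0 (G : (V → V → Prop) → Prop) (B K : ℕ) (L : ℝ) (T : ℕ) : Prop :=
  ∃ r, G r ∧ sz r ≤ B * T ∧ (∃ C a t, FM r K C a t ∧ K * (T + 1) ≤ FF r K C a t) ∧
    (∀ v, ((up r v).card : ℝ) ≤ L) ∧ (∀ v, ((dn r v).card : ℝ) ≤ L)

theorem init_bound {n B K η : ℕ} {δ ε : ℝ} (par : Par n B K η δ ε) (hcard : Fintype.card V = n)
    {G : (V → V → Prop) → Prop} (hG : GG B G) {r : V → V → Prop} (hr : G r) {T : ℕ}
    (hT : (T : ℝ) ≤ 5 * δ * n) (hS : sz r ≤ B * T) (v : V) (hv : ((up r v).card : ℝ) ≤ 0.8 * n) :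
    ((up r v).card : ℝ) ≤ 2 * B - n + 51 * δ * n := by
  have hnB : Fintype.card V ≤ 2 * B + 1 := by rw [hcard]; exact par.hnB
  have hF := Lrun hG hnB _ r hr v rfl
  have hc1 : (up r v).card + ((up r v)ᶜ).card = Fintype.card V := Finset.card_add_card_compl _
  have hm1 : (((up r v)ᶜ).card : ℝ) = n - (up r v).card := by
    have : ((up r v).card : ℝ) + ((up r v)ᶜ).card = n := by
      rw [← hcard]
      exact_mod_cast hc1
    linarith
  have hs1 : (∑ z ∈ (up r v)ᶜ, ((uo r z).card : ℤ)) ≤ (sz r : ℤ) := by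
    rw [sz_eq_sum]
    push_cast
    exact Finset.sum_le_sum_of_subset_of_nonneg (Finset.subset_univ _) (fun _ _ _ => by positivity)
  have hF2 : 2 * ((Fintype.card V : ℤ) - B) * (((up r v)ᶜ).card : ℤ)
      ≤ (((up r v)ᶜ).card : ℤ) * ((((up r v)ᶜ).card : ℤ) + 1) + 2 * (sz r : ℤ) := by linarith
  rw [hcard] at hF2
  have hF3 : 2 * ((n : ℝ) - B) * (((up r v)ᶜ).card : ℝ)
      ≤ (((up r v)ᶜ).card : ℝ) * ((((up r v)ᶜ).card : ℝ) + 1) + 2 * (sz r : ℝ) := by exact_mod_cast hF2
  rw [hm1] at hF3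
  have hn0 : (0 : ℝ) < n := by exact_mod_cast par.hn0
  have hδ0 := par.hδ0
  have hBn := par.hBn
  have h1n := par.h1n
  have hSr : (sz r : ℝ) ≤ B * T := by exact_mod_cast hS
  have hBT : (B : ℝ) * T ≤ n * (5 * δ * n) := by
    apply mul_le_mul (by linarith) hT (by positivity) hn0.le
  by_contra hc
  push Not at hc
  set P : ℝ := ((up r v).card : ℝ) with hP
  have h3 : 50 * δ * n ≤ P - (2 * B - n) - 1 := by linarith
  have h3' : 50 * δ * n < P - (2 * B - n) - 1 ∨ 50 * δ * n = P - (2 * B - n) - 1 := h3.lt_or_eq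
  have h4 : (0.2 * n) * (50 * δ * n) ≤ (n - P) * (P - (2 * B - n) - 1) :=
    mul_le_mul (by linarith) h3 (by positivity) (by linarith)
  have h5 : (n - P) * (P - (2 * B - n) - 1) ≤ 2 * (n * (5 * δ * n)) := by nlinarith
  -- strictness
  have h6 : 50 * δ * n < P - (2 * B - n) - 1 := by
    have : 51 * δ * n = 50 * δ * n + δ * n := by ring
    linarith
  have h7 : (0.2 * n) * (50 * δ * n) < (n - P) * (P - (2 * B - n) - 1) := by
    calc (0.2 * n) * (50 * δ * n) ≤ (n - P) * (50 * δ * n) :=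
          mul_le_mul_of_nonneg_right (by linarith) (by positivity)
      _ < (n - P) * (P - (2 * B - n) - 1) := mul_lt_mul_of_pos_left h6 (by nlinarith)
  nlinarith

theorem uo_growth {r r' : V → V → Prop} (hsub : ∀ a b, r a b → r' a b) {B : ℕ} (hsz : sz r' ≤ sz r + B)
    (v : V) : (uo r' v).card ≤ (uo r v).card + B := by
  rw [sz_eq_sum, sz_eq_sum] at hsz
  rw [← Finset.add_sum_erase _ _ (Finset.mem_univ v), ← Finset.add_sum_erase _ _ (Finset.mem_univ v)] at hsz
  have h1 : ∑ x ∈ univ.erase v, (uo r x).card ≤ ∑ x ∈ univ.erase v, (uo r' x).card :=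
    Finset.sum_le_sum (fun x _ => Finset.card_le_card (uo_mono hsub x))
  omega

theorem up_growth {B : ℕ} {G : (V → V → Prop) → Prop} (hG : GG B G) {r r' : V → V → Prop} (hr : G r)
    (hr' : G r') (hsub : ∀ a b, r a b → r' a b) (hsz : sz r' ≤ sz r + B)
    (v : V) : (up r' v).card ≤ (up r v).card + B := by
  have h1 := uo_growth hsub hsz v
  rw [card_up r (hG.irr r hr), card_up r' (hG.irr r' hr')]
  omega

theorem St0.step {n B K η : ℕ} {δ ε : ℝ} (par : Par n B K η δ ε) (hcard : Fintype.card V = n)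
    {G : (V → V → Prop) → Prop} (hG : GG B G) {T : ℕ} (hT : (T : ℝ) + 1 ≤ 5 * δ * n)
    (h : St0 G B K (2 * B - n + 51 * δ * n) T) : St0 G B K (2 * B - n + 51 * δ * n) (T + 1) := by
  obtain ⟨r, hr, hsz, ⟨C, a, t, h1, h2⟩, h3, h4⟩ := h
  have hn0 : (0 : ℝ) < n := by exact_mod_cast par.hn0
  have hδ0 := par.hδ0
  have hδ := par.hδ
  have hε1 := par.hε1
  have hBn := par.hBn
  have hδn : δ * n ≤ n / 2000 := by nlinarith
  have hex : ∃ z, z ∉ up r a := by
    by_contra hc
    push Not at hc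
    have h5 : up r a = univ := Finset.eq_univ_iff_forall.2 hc
    have h6 := h3 a
    rw [h5, Finset.card_univ, hcard] at h6
    linarith
  obtain ⟨z, hz⟩ := hex
  have hz' := hz
  rw [mem_up, not_or] at hz'
  obtain ⟨r', hr', hsub, hza', hsz'⟩ := hG.step r hr z a hz'.1 (h1.bot hG hr z) hz'.2
  have : Nonempty V := ⟨a⟩
  obtain ⟨C2, a2, t2, h2'⟩ := exists_FM r' K
  have hFF2 := FM_step hG hr' hsub h1 h2' hza'
  have hFF3 : K * (T + 1 + 1) ≤ FF r' K C2 a2 t2 := by
    have : K * (T + 1 + 1) = K * (T + 1) + K := by ring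
    omega
  have hS2 : sz r' ≤ B * (T + 1) := by
    have : B * (T + 1) = B * T + B := by ring
    omega
  refine ⟨r', hr', hS2, ⟨C2, a2, t2, h2', hFF3⟩, ?_, ?_⟩
  · intro v
    apply init_bound (T := T + 1) par hcard hG hr' (by push_cast; exact hT) hS2
    have h5 : ((up r' v).card : ℝ) ≤ (up r v).card + B := by
      exact_mod_cast up_growth hG hr hr' hsub hsz' v
    have h6 := h3 v
    linarith
  · intro v
    apply init_bound (T := T + 1) par hcard hG.op (r := op r') hr' (by push_cast; exact hT) (by rw [sz_op]; exact hS2)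
    have h5 : ((up (op r') v).card : ℝ) ≤ (up (op r) v).card + B := by
      exact_mod_cast up_growth hG.op (r := op r) (r' := op r') hr hr' (fun a b hab => hsub b a hab)
        (by rw [sz_op, sz_op]; exact hsz') v
    have h6 := h4 v
    have h7 : dn r v = up (op r) v := rfl
    rw [h7] at h6
    linarith

/-- no family of non-lost positions contains the empty one -/
theorem noGG {n B K η : ℕ} {δ ε : ℝ} (par : Par n B K η δ ε) (hcard : Fintype.card V = n)
    {G : (V → V → Prop) → Prop} (hG : GG B G) (h0 : G (fun _ _ => False)) : False := by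
  have hn0 : (0 : ℝ) < n := by exact_mod_cast par.hn0
  have hδ0 := par.hδ0
  have hδ := par.hδ
  have hε1 := par.hε1
  have hBn := par.hBn
  have h1n := par.h1n
  have hKn := par.hKn
  have hδn : δ * n ≤ n / 2000 := by nlinarith
  have : Nonempty V := Fintype.card_pos_iff.1 (by rw [hcard]; exact par.hn0)
  have hnB : (n : ℝ) ≤ 2 * B + 1 := by exact_mod_cast par.hnB
  -- start
  have hs0 : St0 G B K (2 * B - n + 51 * δ * n) 0 := by
    obtain ⟨C, a, t, h1⟩ := exists_FM (fun _ _ : V => False) K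
    refine ⟨_, h0, ?_, ⟨C, a, t, h1, ?_⟩, ?_, ?_⟩
    · simp [sz, rel]
    · have h2 : 1 ≤ C.card := Finset.card_pos.2 ⟨a, h1.1.1⟩
      have h3 : K * 1 ≤ K * C.card := Nat.mul_le_mul_left _ h2
      unfold FF
      omega
    · intro v
      have h2 : up (fun _ _ : V => False) v = {v} := by
        ext y
        simp [up]
      rw [h2, Finset.card_singleton]
      push_cast
      linarith
    · intro v
      have h2 : dn (fun _ _ : V => False) v = {v} := by
        ext y
        rw [mem_dn]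
        simp
      rw [h2, Finset.card_singleton]
      push_cast
      linarith
  have hs1 : ∀ T : ℕ, (T : ℝ) ≤ 5 * δ * n → St0 G B K (2 * B - n + 51 * δ * n) T := by
    intro T
    induction T with
    | zero => intro _; exact hs0
    | succ T ih =>
      intro hT
      push_cast at hT
      exact St0.step par hcard hG hT (ih (by linarith))
  obtain ⟨T0, hT0, hT1⟩ : ∃ T0 : ℕ, 3 * δ * n ≤ T0 ∧ (T0 : ℝ) ≤ 4 * δ * n := by
    refine ⟨⌈3 * δ * n⌉₊, Nat.le_ceil _, ?_⟩
    have h1 : (⌈3 * δ * n⌉₊ : ℝ) < 3 * δ * n + 1 := Nat.ceil_lt_add_one (by positivity)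
    linarith
  have hs2 : St G B K T0 := by
    obtain ⟨r, hr, hsz, ⟨C, a, t, h1, h2⟩, h3, h4⟩ := hs1 T0 (by linarith)
    refine ⟨r, hr, hsz, C, a, t, h1, h2, ?_⟩
    have h5 := h3 a
    have h6 := h4 t
    have h7 : ((up r a).card : ℝ) + (dn r t).card < B + T0 := by
      have : (0 : ℝ) ≤ T0 := by positivity
      linarith
    exact_mod_cast h7
  have hs3 : ∀ j : ℕ, T0 + j ≤ n → St G B K (T0 + j) := by
    intro j
    induction j with
    | zero => intro _; exact hs2
    | succ j ih =>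
      intro hj
      exact St.step par hcard hG (T := T0 + j) (by omega) (by push_cast; linarith [(by positivity : (0 : ℝ) ≤ j)])
        (ih (by omega))
  have hT0n : T0 ≤ n := by
    have : (T0 : ℝ) ≤ n := by linarith
    exact_mod_cast this
  have hend := hs3 (n - T0) (by omega)
  have hTn : T0 + (n - T0) = n := by omega
  rw [hTn] at hend
  obtain ⟨r, hr, hsz, C, a, t, h1, h2, h3⟩ := hend
  have hlen := chain_len par hcard h2
  have c5 : (C.card : ℝ) ≤ (up r a).card := by exact_mod_cast Finset.card_le_card h1.1.sub_up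
  have c6 : (C.card : ℝ) ≤ (dn r t).card := by exact_mod_cast Finset.card_le_card h1.1.sub_dn
  have h4 : ((up r a).card : ℝ) + (dn r t).card < B + n := by exact_mod_cast h3
  linarith

end Pool.Agent.Lib_helper93.OC
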