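import Pool.Agent.Lib_helper93.OC.LemQ

set_option autoImplicit false

namespace Pool.Agent.Lib_helper93.OC

open Finset Classical

variable {V : Type} [Fintype V]

/-- growth of an up-set and of a down-set in one round -/
theorem cnt1 {r r' : V → V → Prop} (hsub : ∀ a b, r a b → r' a b) {B : ℕ} (hsz : sz r' ≤ sz r + B) (x y : V) :
    (uo r' x).card + (uo (op r') y).card ≤ (uo r x).card + (uo (op r) y).card + B + 1 := by
  have hnew : (rel r' \ rel r).card ≤ B := by
    have h1 : (rel r' \ rel r).card + (rel r).card = (rel r').card :=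
      Finset.card_sdiff_add_card_eq_card (rel_mono hsub)
    unfold sz at hsz
    omega
  set X : Finset (V × V) := (uo r' x \ uo r x).image (fun v => (x, v)) with hX
  set Y : Finset (V × V) := (uo (op r') y \ uo (op r) y).image (fun v => (v, y)) with hY
  have hXc : X.card = (uo r' x \ uo r x).card :=
    Finset.card_image_of_injective _ (fun a b hab => (Prod.mk.injEq _ _ _ _ ▸ hab).2)
  have hYc : Y.card = (uo (op r') y \ uo (op r) y).card :=
    Finset.card_image_of_injective _ (fun a b hab => (Prod.mk.injEq _ _ _ _ ▸ hab).1)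
  have hXs : X ⊆ rel r' \ rel r := by
    intro p hp
    rw [hX, Finset.mem_image] at hp
    obtain ⟨v, hv, rfl⟩ := hp
    rw [Finset.mem_sdiff, mem_uo, mem_uo] at hv
    rw [Finset.mem_sdiff, mem_rel, mem_rel]
    exact hv
  have hYs : Y ⊆ rel r' \ rel r := by
    intro p hp
    rw [hY, Finset.mem_image] at hp
    obtain ⟨v, hv, rfl⟩ := hp
    rw [Finset.mem_sdiff, mem_uo, mem_uo] at hv
    rw [Finset.mem_sdiff, mem_rel, mem_rel]
    exact hv
  have hXY : (X ∩ Y).card ≤ 1 := by
    have : X ∩ Y ⊆ {(x, y)} := by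
      intro p hp
      rw [Finset.mem_inter, hX, hY, Finset.mem_image, Finset.mem_image] at hp
      obtain ⟨⟨v, _, h1⟩, ⟨w, _, h2⟩⟩ := hp
      rw [Finset.mem_singleton, ← h1]
      rw [← h2] at h1
      have := (Prod.mk.injEq _ _ _ _ ▸ h1 : x = w ∧ v = y).2
      rw [this]
    exact (Finset.card_le_card this).trans (by simp)
  have h1 : (X ∪ Y).card + (X ∩ Y).card = X.card + Y.card := Finset.card_union_add_card_inter _ _
  have h2 := Finset.card_le_card (Finset.union_subset hXs hYs)
  have h3 : (uo r' x \ uo r x).card + (uo r x).card = (uo r' x).card :=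
    Finset.card_sdiff_add_card_eq_card (uo_mono hsub x)
  have h4 : (uo (op r') y \ uo (op r) y).card + (uo (op r) y).card = (uo (op r') y).card :=
    Finset.card_sdiff_add_card_eq_card (uo_mono (r := op r) (r' := op r') (fun a b hab => hsub b a hab) y)
  omega

theorem cnt2 {r r' : V → V → Prop} (hsub : ∀ a b, r a b → r' a b) {B : ℕ} (hsz : sz r' ≤ sz r + B) {x z : V}
    (hxz : x ≠ z) (y : V) :
    (uo r' x).card + (uo r' z).card + (uo (op r') y).card
      ≤ (uo r x).card + (uo r z).card + (uo (op r) y).card + B + 2 := by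
  have hnew : (rel r' \ rel r).card ≤ B := by
    have h1 : (rel r' \ rel r).card + (rel r).card = (rel r').card :=
      Finset.card_sdiff_add_card_eq_card (rel_mono hsub)
    unfold sz at hsz
    omega
  set X : Finset (V × V) := (uo r' x \ uo r x).image (fun v => (x, v)) with hX
  set Z : Finset (V × V) := (uo r' z \ uo r z).image (fun v => (z, v)) with hZ
  set Y : Finset (V × V) := (uo (op r') y \ uo (op r) y).image (fun v => (v, y)) with hY
  have hXc : X.card = (uo r' x \ uo r x).card :=
    Finset.card_image_of_injective _ (fun a b hab => (Prod.mk.injEq _ _ _ _ ▸ hab).2)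
  have hZc : Z.card = (uo r' z \ uo r z).card :=
    Finset.card_image_of_injective _ (fun a b hab => (Prod.mk.injEq _ _ _ _ ▸ hab).2)
  have hYc : Y.card = (uo (op r') y \ uo (op r) y).card :=
    Finset.card_image_of_injective _ (fun a b hab => (Prod.mk.injEq _ _ _ _ ▸ hab).1)
  have hXs : X ⊆ rel r' \ rel r := by
    intro p hp
    rw [hX, Finset.mem_image] at hp
    obtain ⟨v, hv, rfl⟩ := hp
    rw [Finset.mem_sdiff, mem_uo, mem_uo] at hv
    rw [Finset.mem_sdiff, mem_rel, mem_rel]
    exact hv
  have hZs : Z ⊆ rel r' \ rel r := by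
    intro p hp
    rw [hZ, Finset.mem_image] at hp
    obtain ⟨v, hv, rfl⟩ := hp
    rw [Finset.mem_sdiff, mem_uo, mem_uo] at hv
    rw [Finset.mem_sdiff, mem_rel, mem_rel]
    exact hv
  have hYs : Y ⊆ rel r' \ rel r := by
    intro p hp
    rw [hY, Finset.mem_image] at hp
    obtain ⟨v, hv, rfl⟩ := hp
    rw [Finset.mem_sdiff, mem_uo, mem_uo] at hv
    rw [Finset.mem_sdiff, mem_rel, mem_rel]
    exact hv
  have hXZ : Disjoint X Z := by
    rw [Finset.disjoint_left]
    intro p hp hp'
    rw [hX, Finset.mem_image] at hp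
    rw [hZ, Finset.mem_image] at hp'
    obtain ⟨v, _, h1⟩ := hp
    obtain ⟨w, _, h2⟩ := hp'
    rw [← h2] at h1
    exact hxz (Prod.mk.injEq _ _ _ _ ▸ h1 : x = z ∧ v = w).1
  have hXY : ((X ∪ Z) ∩ Y).card ≤ 2 := by
    have : (X ∪ Z) ∩ Y ⊆ {(x, y), (z, y)} := by
      intro p hp
      rw [Finset.mem_inter, Finset.mem_union, hX, hY, hZ, Finset.mem_image, Finset.mem_image,
        Finset.mem_image] at hp
      rw [Finset.mem_insert, Finset.mem_singleton]
      obtain ⟨h1, ⟨w, _, h2⟩⟩ := hp
      rcases h1 with ⟨v, _, h1⟩ | ⟨v, _, h1⟩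
      · left
        rw [← h1]
        rw [← h2] at h1
        have := (Prod.mk.injEq _ _ _ _ ▸ h1 : x = w ∧ v = y).2
        rw [this]
      · right
        rw [← h1]
        rw [← h2] at h1
        have := (Prod.mk.injEq _ _ _ _ ▸ h1 : z = w ∧ v = y).2
        rw [this]
    exact (Finset.card_le_card this).trans Finset.card_le_two
  have h0 : (X ∪ Z).card = X.card + Z.card := Finset.card_union_of_disjoint hXZ
  have h1 : ((X ∪ Z) ∪ Y).card + ((X ∪ Z) ∩ Y).card = (X ∪ Z).card + Y.card :=
    Finset.card_union_add_card_inter _ _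
  have h2 := Finset.card_le_card (Finset.union_subset (Finset.union_subset hXs hZs) hYs)
  have h3 : (uo r' x \ uo r x).card + (uo r x).card = (uo r' x).card :=
    Finset.card_sdiff_add_card_eq_card (uo_mono hsub x)
  have h3' : (uo r' z \ uo r z).card + (uo r z).card = (uo r' z).card :=
    Finset.card_sdiff_add_card_eq_card (uo_mono hsub z)
  have h4 : (uo (op r') y \ uo (op r) y).card + (uo (op r) y).card = (uo (op r') y).card :=
    Finset.card_sdiff_add_card_eq_card (uo_mono (r := op r) (r' := op r') (fun a b hab => hsub b a hab) y)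
  omega

/-- the round bound -/
theorem round_bound {B : ℕ} {G : (V → V → Prop) → Prop} (hG : GG B G) {r r' : V → V → Prop} (hr : G r)
    (hr' : G r') (hsub : ∀ a b, r a b → r' a b) (hsz : sz r' ≤ sz r + B) {a t z : V} {η : ℕ}
    (hza : r' z a) (hnu : ∀ v, (up r v).card ≤ (up r a).card + η)
    (hnd : ∀ v, (dn r v).card ≤ (dn r t).card + η) (x y : V) :
    (up r' x).card + (dn r' y).card ≤ B + (dn r t).card + 2 * η + 2 + (uo r z).card := by
  have e1 := card_up r' (hG.irr r' hr') x
  have e2 : (dn r' y).card = (uo (op r') y).card + 1 := card_up (op r') (fun v => hG.irr r' hr' v) y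
  have e3 := card_up r (hG.irr r hr) x
  have e4 : (dn r y).card = (uo (op r) y).card + 1 := card_up (op r) (fun v => hG.irr r hr v) y
  have e5 : (up r a).card ≤ (uo r' z).card :=
    (Finset.card_le_card (up_mono hsub a)).trans (Finset.card_le_card (up_subset (hG.tr r' hr') hza))
  have h1 := hnu x
  have h2 := hnd y
  by_cases hxz : x = z
  · subst hxz
    have h3 := cnt1 hsub hsz x y
    omega
  · have h3 := cnt2 hsub hsz hxz y
    omega

/-- an attack onto the bottom of a maximal chain raises the maximal weight -/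
theorem FM_step {B : ℕ} {G : (V → V → Prop) → Prop} (hG : GG B G) {r r' : V → V → Prop}
    (hr' : G r') (hsub : ∀ a b, r a b → r' a b) {W : ℕ} {C C2 : Finset V} {a t z a2 t2 : V}
    (h : FM r W C a t) (h2 : FM r' W C2 a2 t2) (hza : r' z a) :
    FF r W C a t + W ≤ FF r' W C2 a2 t2 := by
  obtain ⟨h1, h2', h3, h4, h5⟩ := h.1.mono hsub
  have hzx : ∀ x ∈ C, r' z x := by
    intro x hx
    rcases h3 x hx with rfl | h
    · exact hza
    · exact hG.tr r' hr' _ _ _ hza h
  have hzC : z ∉ C := fun hz => hG.irr r' hr' z (hzx z hz)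
  have hch : IsCh r' (insert z C) z t := by
    refine ⟨Finset.mem_insert_self _ _, Finset.mem_insert_of_mem h2', ?_, ?_, ?_⟩
    · intro x hx
      rw [Finset.mem_insert] at hx
      exact hx.imp_right (hzx x)
    · intro x hx
      rw [Finset.mem_insert] at hx
      rcases hx with rfl | hx
      · exact Or.inr (hzx t h2')
      · exact h4 x hx
    · intro x hx y hy
      rw [Finset.mem_insert] at hx hy
      rcases hx with rfl | hx
      · rcases hy with rfl | hy
        · exact Or.inl rfl
        · exact Or.inr (Or.inl (hzx y hy))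
      · rcases hy with rfl | hy
        · exact Or.inr (Or.inr (hzx x hx))
        · exact h5 x hx y hy
  have h6 := h2.2 _ _ _ hch
  unfold FF at h6 ⊢
  rw [Finset.card_insert_of_notMem hzC] at h6
  have h7 : (up r a).card ≤ (up r' z).card :=
    (Finset.card_le_card (up_mono hsub a)).trans (Finset.card_le_card (up_sub_up hG hr' hza))
  have h8 : (dn r t).card ≤ (dn r' t).card :=
    Finset.card_le_card (up_mono (r := op r) (r' := op r') (fun a b hab => hsub b a hab) t)
  have h9 : W * (C.card + 1) = W * C.card + W := by ring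
  omega

/-- existence of a cheap element outside both ends -/
theorem exists_cheap {B : ℕ} {G : (V → V → Prop) → Prop} (hG : GG B G) {r : V → V → Prop}
    (hr : G r) {W : ℕ} {C : Finset V} {a t : V} (h : FM r W C a t) {K η : ℕ}
    (hK : 0 < K) (hη : 0 < η) (hKC : K ≤ C.card) (hBK : B ≤ η * K) (hWK : W * K ≤ η)
    (hB : B < Fintype.card V)
    (hsmall : (up r a).card + (dn r t).card ≤ B + C.card) :
    ∃ z, z ∉ up r a ∧ z ∉ dn r t ∧ (uo r z).card * (Fintype.card V - B)
      ≤ 2 * η * Fintype.card V + Fintype.card V * K := by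
  have hbad1 : ((rel r).filter (fun p => p.1 ∉ dn r t)).card
      ≤ 2 * η * Fintype.card V + Fintype.card V * K :=
    bad hG hr hη hBK (h.top hG hr) (fun b => FM.near hG.op (r := op r) hr h.op hK hKC hBK hWK b)
  set R : Finset V := (up r a ∪ dn r t)ᶜ with hR
  have hRc : Fintype.card V - B ≤ R.card := by
    have h1 : (up r a ∪ dn r t).card + R.card = Fintype.card V := Finset.card_add_card_compl _
    have h2 : (up r a ∪ dn r t).card + (up r a ∩ dn r t).card = (up r a).card + (dn r t).card :=
      Finset.card_union_add_card_inter _ _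
    have h3 : C.card ≤ (up r a ∩ dn r t).card :=
      Finset.card_le_card (Finset.subset_inter h.1.sub_up h.1.sub_dn)
    omega
  have hne : R.Nonempty := by
    rw [← Finset.card_pos]
    omega
  obtain ⟨z, hz, hzmin⟩ := Finset.exists_min_image R (fun z => (uo r z).card) hne
  have hz' := hz
  rw [hR, Finset.mem_compl, Finset.mem_union, not_or] at hz'
  refine ⟨z, hz'.1, hz'.2, ?_⟩
  refine le_trans ?_ hbad1
  have h1 : ∑ w ∈ R, (uo r w).card = ((rel r).filter (fun p => p.1 ∈ R)).card := sum_uo r R
  have h2 : ((rel r).filter (fun p => p.1 ∈ R)).card ≤ ((rel r).filter (fun p => p.1 ∉ dn r t)).card := by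
    apply Finset.card_le_card
    intro p hp
    rw [mem_filter] at hp ⊢
    refine ⟨hp.1, ?_⟩
    have h3 := hp.2
    rw [hR, Finset.mem_compl, Finset.mem_union, not_or] at h3
    exact h3.2
  have h3 : R.card * (uo r z).card ≤ ∑ w ∈ R, (uo r w).card := by
    rw [← smul_eq_mul, ← Finset.sum_const]
    exact Finset.sum_le_sum (fun w hw => hzmin w hw)
  calc (uo r z).card * (Fintype.card V - B) ≤ (uo r z).card * R.card := Nat.mul_le_mul_left _ hRc
    _ = R.card * (uo r z).card := mul_comm _ _
    _ ≤ ((rel r).filter (fun p => p.1 ∉ dn r t)).card := by omega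

end Pool.Agent.Lib_helper93.OC
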